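import Mathlib

/-!
# Two combinatorial lemmas

`cheapQ`: a subset of small weight of comparable mass.  `scales`: a gap among the values of
finitely many numbers.
-/

open Finset

namespace Pool.Agent.Lib.AbcL

/-- A subset of weight in `[a, 2a]`. -/
theorem exists_piece {ι : Type*} [DecidableEq ι] (w : ι → ℝ) (a : ℝ) (ha : 0 < a)
    (P : Finset ι) (hwa : ∀ p ∈ P, w p ≤ a) (h : a ≤ ∑ p ∈ P, w p) :
    ∃ Q ⊆ P, a ≤ ∑ p ∈ Q, w p ∧ ∑ p ∈ Q, w p ≤ 2 * a := by
  induction P using Finset.induction_on with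
  | empty => simp only [Finset.sum_empty] at h; linarith
  | insert x s hx ih =>
    rw [Finset.sum_insert hx] at h
    by_cases h1 : a ≤ ∑ p ∈ s, w p
    · obtain ⟨Q, hQ, h2, h3⟩ := ih (fun p hp => hwa p (Finset.mem_insert_of_mem hp)) h1
      exact ⟨Q, hQ.trans (Finset.subset_insert _ _), h2, h3⟩
    · push Not at h1
      refine ⟨insert x s, Finset.Subset.refl _, ?_, ?_⟩
      · rw [Finset.sum_insert hx]; exact h
      · rw [Finset.sum_insert hx]
        have := hwa x (Finset.mem_insert_self _ _)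
        linarith

/-- Among elements of weight at most `a` with total weight at most `W` there is a subset of
weight at most `2 a` carrying the proportion `a / (W + a)` of the mass. -/
theorem cheapQ {ι : Type*} [DecidableEq ι] (w u : ι → ℝ) (a : ℝ) (ha : 0 < a) :
    ∀ (P : Finset ι) (W : ℝ), (∀ p ∈ P, 0 ≤ w p) → (∀ p ∈ P, 0 ≤ u p) → (∀ p ∈ P, w p ≤ a) →
      ∑ p ∈ P, w p ≤ W →
      ∃ Q ⊆ P, ∑ p ∈ Q, w p ≤ 2 * a ∧ a * ∑ p ∈ P, u p ≤ (W + a) * ∑ p ∈ Q, u p := by
  intro P
  induction P using Finset.strongInduction with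
  | H P ih =>
    intro W hw0 hu0 hwa hW
    by_cases h1 : ∑ p ∈ P, w p < a
    · refine ⟨P, Finset.Subset.refl _, by linarith, ?_⟩
      have h2 : 0 ≤ ∑ p ∈ P, u p := Finset.sum_nonneg hu0
      have h3 : 0 ≤ ∑ p ∈ P, w p := Finset.sum_nonneg hw0
      nlinarith
    · push Not at h1
      obtain ⟨Q1, hQ1, h2, h3⟩ := exists_piece w a ha P hwa h1
      have hne : Q1.Nonempty := by
        rw [Finset.nonempty_iff_ne_empty]
        rintro rfl
        simp only [Finset.sum_empty] at h2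
        linarith
      have hss : P \ Q1 ⊂ P := Finset.sdiff_ssubset hQ1 hne
      have hsum : ∑ p ∈ P \ Q1, w p + ∑ p ∈ Q1, w p = ∑ p ∈ P, w p :=
        Finset.sum_sdiff hQ1
      have hsumu : ∑ p ∈ P \ Q1, u p + ∑ p ∈ Q1, u p = ∑ p ∈ P, u p :=
        Finset.sum_sdiff hQ1
      obtain ⟨Q2, hQ2, h4, h5⟩ := ih (P \ Q1) hss (W - a)
        (fun p hp => hw0 p (Finset.sdiff_subset hp)) (fun p hp => hu0 p (Finset.sdiff_subset hp))
        (fun p hp => hwa p (Finset.sdiff_subset hp)) (by linarith)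
      have hWa : 0 ≤ W - a := by
        have : 0 ≤ ∑ p ∈ P \ Q1, w p :=
          Finset.sum_nonneg (fun p hp => hw0 p (Finset.sdiff_subset hp))
        linarith
      rcases le_total (∑ p ∈ Q1, u p) (∑ p ∈ Q2, u p) with h6 | h6
      · refine ⟨Q2, hQ2.trans Finset.sdiff_subset, h4, ?_⟩
        rw [← hsumu, mul_add]
        have h7 : a * ∑ p ∈ Q1, u p ≤ a * ∑ p ∈ Q2, u p := mul_le_mul_of_nonneg_left h6 ha.le
        rw [show W - a + a = W by ring] at h5
        linarith
      · refine ⟨Q1, hQ1, h3, ?_⟩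
        rw [← hsumu, mul_add]
        rw [show W - a + a = W by ring] at h5
        have h7 : W * ∑ p ∈ Q2, u p ≤ W * ∑ p ∈ Q1, u p :=
          mul_le_mul_of_nonneg_left h6 (by linarith)
        linarith

/-- Given `m + 1` disjoint intervals and `m` numbers, one of the intervals contains none of the
numbers. -/
theorem scales (m : ℕ) (η : ℕ → ℝ) (hη : Antitone η) (f : Fin m → ℝ) :
    ∃ j : ℕ, j < m + 1 ∧ ∀ i, f i ≤ η (j + 1) ∨ η j < f i := by
  by_contra hcon
  push Not at hcon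
  have h1 : ∀ j : Fin (m + 1), ∃ i : Fin m, η (j + 1) < f i ∧ f i ≤ η j := fun j => hcon j j.2
  choose g hg using h1
  obtain ⟨x, y, hxy, hgxy⟩ := Fintype.exists_ne_map_eq_of_card_lt g (by simp)
  have h2 := hg x
  have h3 := hg y
  rw [hgxy] at h2
  rcases lt_or_gt_of_ne hxy with h | h
  · have h4 : η (y : ℕ) ≤ η ((x : ℕ) + 1) := hη (by
      have : (x : ℕ) < (y : ℕ) := h
      omega)
    linarith [h2.1, h3.2]
  · have h4 : η (x : ℕ) ≤ η ((y : ℕ) + 1) := hη (by
      have : (y : ℕ) < (x : ℕ) := h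
      omega)
    linarith [h3.1, h2.2]

end Pool.Agent.Lib.AbcL
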