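import Mathlib
import Pool.Agent.Lib.Pabcv.Core
import Pool.Agent.Lib.Pabc1.RClass
import Pool.Agent.Lib.Pabc8.CoverR

/-!
# Counting triples with a large modulus of small radical in one member
-/

open Finset Filter Topology

namespace Pool.Agent.Lib.AbcL

open Pool.Agent.Lib.Pabc2 Pool.Agent.Lib.Pabc1 Pool.Agent.Lib.Pabc8 Pool.Agent.Lib.Pabcv

/-- The two members other than the one with label `l`. -/
def oth (t : ℕ × ℕ) (l : Fin 3) : ℕ × ℕ :=
  if l = 0 then (t.2, t.1 + t.2) else if l = 1 then (t.1, t.1 + t.2) else (t.1, t.2)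

theorem oth_inj {t t' : ℕ × ℕ} {l : Fin 3} (h : oth t l = oth t' l) : t = t' := by
  unfold oth at h
  obtain ⟨a, b⟩ := t
  obtain ⟨a', b'⟩ := t'
  split_ifs at h <;> simp only [Prod.mk.injEq] at h ⊢ <;> omega

theorem oth_rel (t : ℕ × ℕ) (l : Fin 3) : Pabcv.Rel (oth t l).1 (oth t l).2 (comp t l) := by
  have hl3 : l = 0 ∨ l = 1 ∨ l = 2 := by omega
  rcases hl3 with rfl | rfl | rfl
  · right; left
    show t.2 + t.1 = t.1 + t.2
    omega
  · right; left
    show t.1 + t.2 = t.1 + t.2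
    rfl
  · left
    show t.1 + t.2 = t.1 + t.2
    rfl

theorem oth_coprime {t : ℕ × ℕ} (h : IsT t) (l : Fin 3) : (oth t l).1.Coprime (comp t l) := by
  have hc := h.2.2
  unfold oth comp
  split_ifs
  · exact hc.symm
  · exact hc
  · simpa using hc

theorem rad_comp {t : ℕ × ℕ} (h : IsT t) (l : Fin 3) :
    rad (comp t l) = ∏ p ∈ (N t).primeFactors.filter (fun p => lab t p = l), p := by
  rw [rad, comp_primeFactors h l]

theorem log_rad_comp {t : ℕ × ℕ} (h : IsT t) (l : Fin 3) :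
    Real.log (rad (comp t l)) = wt t l := by
  rw [rad_comp h l, wt]
  push_cast
  exact Real.log_prod (fun p hp => by
    exact_mod_cast (Nat.prime_of_mem_primeFactors (Finset.mem_filter.mp hp).1).ne_zero)

theorem oth_comp (t : ℕ × ℕ) (l : Fin 3) : ∃ i j : Fin 3, i ≠ j ∧ i ≠ l ∧ j ≠ l ∧
    (oth t l).1 = comp t i ∧ (oth t l).2 = comp t j := by
  have hl3 : l = 0 ∨ l = 1 ∨ l = 2 := by omega
  rcases hl3 with rfl | rfl | rfl
  · exact ⟨1, 2, by decide, by decide, by decide, rfl, rfl⟩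
  · exact ⟨0, 2, by decide, by decide, by decide, rfl, rfl⟩
  · exact ⟨0, 1, by decide, by decide, by decide, rfl, rfl⟩

theorem comp_le_exp {t : ℕ × ℕ} (h : IsT t) (l : Fin 3) : (comp t l : ℝ) ≤ Real.exp (ht t) := by
  have hp : (0 : ℝ) < comp t l := by exact_mod_cast comp_pos h l
  rw [← Real.log_le_iff_le_exp hp]
  exact log_comp_le h l

theorem count_T3 (M ρ v η : ℝ) (hη : 0 < η) :
    ∀ᶠ n : ℕ in atTop, ∀ T : Finset (ℕ × ℕ),
      (∀ t ∈ T, IsT t ∧ rd t ≤ n ∧ ht t ≤ M * Real.log n ∧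
        ∃ l : Fin 3, ∃ Q ⊆ (N t).primeFactors, (∀ p ∈ Q, lab t p = l) ∧
          ((∏ p ∈ Q, p : ℕ) : ℝ) ≤ (n : ℝ) ^ ρ ∧
          5 / 2 * Real.log n ≤ (∑ p ∈ Q, u t p) * ht t ∧
          tw t - wt t l ≤ 2 * v * Real.log n) →
      (T.card : ℝ) ≤ (n : ℝ) ^ (ρ + v + η) := by
  classical
  obtain ⟨δ, hδ0, hδη, hδ1⟩ : ∃ δ : ℝ, 0 < δ ∧ 8 * δ ≤ η ∧ δ ≤ 1 / 100 :=
    ⟨min (η / 8) (1 / 100), by positivity, by linarith [min_le_left (η / 8) (1 / 100)],
      min_le_right _ _⟩
  set K : ℝ := max M 3 with hK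
  have hK3 : 3 ≤ K := le_max_right _ _
  obtain ⟨C, Y0, hC1, hC⟩ := alphaPairs_card K (5 / 2) δ (by norm_num) (by linarith) hδ0
  obtain ⟨N0, hN0⟩ := exists_nat_gt (1 / δ + 2)
  have hlim : Tendsto (fun n : ℕ => (n : ℝ)) atTop atTop := tendsto_natCast_atTop_atTop
  have hbig : ∀ᶠ n : ℕ in atTop, 3 * (N0 : ℝ) ^ 2 * C ≤ (n : ℝ) ^ δ :=
    ((tendsto_rpow_atTop hδ0).comp hlim).eventually_ge_atTop _
  filter_upwards [hlim.eventually (eventually_ge_atTop Y0), hbig, eventually_ge_atTop 2]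
    with n h1 h2 h3 T hT
  set Y : ℝ := (n : ℝ) with hY
  have hY2 : (2 : ℝ) ≤ Y := by rw [hY]; exact_mod_cast h3
  have hY1 : 1 < Y := by linarith
  have hY0' : 0 < Y := by linarith
  have hlog : 0 < Real.log Y := Real.log_pos hY1
  set X : ℕ := ⌊Y ^ K⌋₊ with hX
  set G : Finset (ℕ × ℕ) := (Finset.range N0 ×ˢ Finset.range N0).filter
    (fun c => δ * (c.1 : ℝ) + δ * (c.2 : ℝ) ≤ 2 * v + 2 * δ ∧ δ * (c.1 : ℝ) ≤ 11 / 10 ∧
      δ * (c.2 : ℝ) ≤ 11 / 10) with hG
  set P : Fin 3 → ℕ × ℕ → Finset (ℕ × ℕ) := fun l c => T.filter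
    (fun t => oth t l ∈ alphaPairs K Y (5 / 2) ρ (δ * c.1) (δ * c.2)) with hP
  have hcover : T ⊆ (Finset.univ : Finset (Fin 3)).biUnion (fun l => G.biUnion (P l)) := by
    intro t ht'
    obtain ⟨hI, hrd, hht, l, Q, hQ, hQl, hQρ, hQm, hv⟩ := hT t ht'
    obtain ⟨i, j, hij, hil, hjl, hoi, hoj⟩ := oth_comp t l
    have hcomp : ∀ s : Fin 3, comp t s ∈ Finset.Icc 1 X := by
      intro s
      rw [Finset.mem_Icc]
      refine ⟨comp_pos hI s, Nat.le_floor ?_⟩
      refine (comp_le_exp hI s).trans ?_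
      rw [Real.rpow_def_of_pos hY0', Real.exp_le_exp]
      refine hht.trans ?_
      rw [mul_comm]
      exact mul_le_mul_of_nonneg_left (le_max_left _ _) hlog.le
    have hrad1 : ∀ s : Fin 3, 1 ≤ rad (comp t s) := fun s => rad_pos _
    have hwts : wt t i + wt t j ≤ 2 * v * Real.log Y := by
      have := wt_sum t hij hil hjl
      linarith
    have htw : tw t ≤ Real.log Y := by
      unfold tw
      have e1 : Real.log ((∏ p ∈ (N t).primeFactors, p : ℕ) : ℝ) =
          ∑ p ∈ (N t).primeFactors, Real.log (p : ℝ) := by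
        push_cast
        exact Real.log_prod (fun p hp => by
          exact_mod_cast (Nat.prime_of_mem_primeFactors hp).ne_zero)
      rw [← e1]
      apply Real.log_le_log
      · exact_mod_cast Finset.prod_pos (fun p hp => (Nat.prime_of_mem_primeFactors hp).pos)
      · rw [hY]; exact_mod_cast hrd
    have hwi : ∀ s, wt t s ≤ Real.log Y := by
      intro s
      refine le_trans ?_ htw
      unfold wt tw
      exact Finset.sum_le_sum_of_subset_of_nonneg (Finset.filter_subset _ _)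
        (fun p _ _ => Real.log_natCast_nonneg p)
    have hcl : ∀ s, δ * (cell δ Y (rad (comp t s)) : ℝ) ≤ wt t s / Real.log Y + δ := by
      intro s
      have := cell_le hδ0 hY1 (hrad1 s)
      rwa [log_rad_comp hI s] at this
    have hc1 : ∀ s, δ * (cell δ Y (rad (comp t s)) : ℝ) ≤ 1 + δ := by
      intro s
      have h4 : wt t s / Real.log Y ≤ 1 := (div_le_one hlog).mpr (hwi s)
      have := hcl s
      linarith
    have hcN : ∀ s, cell δ Y (rad (comp t s)) < N0 := by
      intro s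
      have h4 := hc1 s
      have h5 : (cell δ Y (rad (comp t s)) : ℝ) ≤ 1 / δ + 1 := by
        rw [show 1 / δ + 1 = (1 + δ) / δ by field_simp, le_div_iff₀ hδ0]
        linarith
      have h6 : (cell δ Y (rad (comp t s)) : ℝ) < N0 := by linarith
      exact_mod_cast h6
    simp only [Finset.mem_biUnion, Finset.mem_univ, true_and]
    refine ⟨l, (cell δ Y (rad (comp t i)), cell δ Y (rad (comp t j))), ?_, ?_⟩
    · rw [hG, Finset.mem_filter, Finset.mem_product, Finset.mem_range, Finset.mem_range]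
      refine ⟨⟨hcN i, hcN j⟩, ?_, by linarith [hc1 i], by linarith [hc1 j]⟩
      have h4 : wt t i / Real.log Y + wt t j / Real.log Y ≤ 2 * v := by
        rw [← add_div, div_le_iff₀ hlog]
        exact hwts
      have := hcl i
      have := hcl j
      simp only
      linarith
    · simp only [hP]
      rw [Finset.mem_filter]
      refine ⟨ht', ?_⟩
      rw [mem_alphaPairs]
      set α : ℕ := ∏ p ∈ Q, p ^ ex t p with hα
      have hQp : ∀ p ∈ Q, p.Prime := fun p hp => Nat.prime_of_mem_primeFactors (hQ hp)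
      have hαdvd : α ∣ comp t l := by
        rw [comp_eq hI l]
        apply Finset.prod_dvd_prod_of_subset
        intro p hp
        rw [Finset.mem_filter]
        exact ⟨hQ hp, hQl p hp⟩
      have hα0 : 0 < α := Finset.prod_pos (fun p hp => pow_pos (hQp p hp).pos _)
      have hradα : rad α ≤ ∏ p ∈ Q, p := by
        unfold rad
        apply Finset.prod_le_prod_of_subset_of_one_le'
        · intro p hp
          rw [Nat.mem_primeFactors] at hp
          obtain ⟨q, hq, hd⟩ := (hp.1.prime.dvd_finsetProd_iff _).mp hp.2.1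
          have := hp.1.prime.dvd_of_dvd_pow hd
          rwa [(Nat.prime_dvd_prime_iff_eq hp.1 (hQp q hq)).mp this]
        · intro p hp _
          exact (hQp p hp).one_lt.le
      refine ⟨α, ?_, ?_, ?_⟩
      · rw [mem_radSet]
        refine ⟨⟨hα0, (Nat.le_of_dvd (comp_pos hI l) hαdvd).trans
          (Finset.mem_Icc.mp (hcomp l)).2⟩, ?_⟩
        exact le_trans (by exact_mod_cast hradα) hQρ
      · have hH := ht_pos hI
        have e1 : Real.log (α : ℝ) = (∑ p ∈ Q, u t p) * ht t := by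
          rw [hα]
          push_cast
          rw [Real.log_prod (fun p hp => by
            have := (hQp p hp).pos
            positivity), Finset.sum_mul]
          apply Finset.sum_congr rfl
          intro p hp
          rw [Real.log_pow, u]
          field_simp
        have hα' : (0 : ℝ) < α := by exact_mod_cast hα0
        rw [← Real.log_le_log_iff (by positivity) hα', e1, Real.log_rpow hY0']
        exact hQm
      · have hx : (oth t l).1 ∈ radSet X (Y ^ (δ * (cell δ Y (rad (comp t i)) : ℝ))) := by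
          rw [hoi, mem_radSet]
          exact ⟨Finset.mem_Icc.mp (hcomp i), le_rpow_cell hδ0 hY1 (hrad1 i)⟩
        have hy : (oth t l).2 ∈ radSet X (Y ^ (δ * (cell δ Y (rad (comp t j)) : ℝ))) := by
          rw [hoj, mem_radSet]
          exact ⟨Finset.mem_Icc.mp (hcomp j), le_rpow_cell hδ0 hY1 (hrad1 j)⟩
        exact mem_pairSet_of_dvd hx hy (oth_rel t l) (oth_coprime hI l) hαdvd
  have hPc : ∀ l : Fin 3, ∀ c ∈ G, ((P l c).card : ℝ) ≤ C * Y ^ (ρ + v + 7 * δ) := by
    intro l c hc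
    rw [hG, Finset.mem_filter] at hc
    obtain ⟨-, hc1, hc2, hc3⟩ := hc
    have h4 : (P l c).card ≤ (alphaPairs K Y (5 / 2) ρ (δ * c.1) (δ * c.2)).card :=
      Finset.card_le_card_of_injOn (fun t => oth t l)
        (fun t ht' => (Finset.mem_filter.mp ht').2) (fun t _ t' _ h => oth_inj h)
    have h5 := hC Y h1 ρ (δ * c.1) (δ * c.2) 0 0 (by positivity) (by positivity)
      (by linarith) (by linarith) le_rfl le_rfl (fun h => by linarith) (fun h => by linarith)
    calc ((P l c).card : ℝ) ≤ ((alphaPairs K Y (5 / 2) ρ (δ * c.1) (δ * c.2)).card : ℝ) := by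
          exact_mod_cast h4
      _ ≤ C * Y ^ (ρ + (δ * c.1 + 0 + δ * c.2 + 0) / 2 + 6 * δ) := h5
      _ ≤ C * Y ^ (ρ + v + 7 * δ) := by
          apply mul_le_mul_of_nonneg_left _ (by linarith)
          apply Real.rpow_le_rpow_of_exponent_le hY1.le
          linarith
  have hGc : (G.card : ℝ) ≤ (N0 : ℝ) ^ 2 := by
    have : G.card ≤ N0 * N0 := by
      refine (Finset.card_filter_le _ _).trans ?_
      rw [Finset.card_product, Finset.card_range]
    calc (G.card : ℝ) ≤ ((N0 * N0 : ℕ) : ℝ) := by exact_mod_cast this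
      _ = _ := by push_cast; ring
  have hB0 : 0 ≤ C * Y ^ (ρ + v + 7 * δ) := by positivity
  calc (T.card : ℝ) ≤ (((Finset.univ : Finset (Fin 3)).biUnion
        (fun l => G.biUnion (P l))).card : ℝ) := by exact_mod_cast Finset.card_le_card hcover
    _ ≤ ∑ l : Fin 3, ((G.biUnion (P l)).card : ℝ) := by exact_mod_cast Finset.card_biUnion_le
    _ ≤ ∑ _l : Fin 3, (N0 : ℝ) ^ 2 * (C * Y ^ (ρ + v + 7 * δ)) := by
        apply Finset.sum_le_sum
        intro l _
        calc ((G.biUnion (P l)).card : ℝ) ≤ ∑ c ∈ G, ((P l c).card : ℝ) := by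
              exact_mod_cast Finset.card_biUnion_le
          _ ≤ ∑ _c ∈ G, C * Y ^ (ρ + v + 7 * δ) := Finset.sum_le_sum (hPc l)
          _ = (G.card : ℝ) * (C * Y ^ (ρ + v + 7 * δ)) := by
              rw [Finset.sum_const, nsmul_eq_mul]
          _ ≤ _ := mul_le_mul_of_nonneg_right hGc hB0
    _ = (3 * (N0 : ℝ) ^ 2 * C) * Y ^ (ρ + v + 7 * δ) := by
        rw [Finset.sum_const, nsmul_eq_mul, Finset.card_univ, Fintype.card_fin]
        push_cast
        ring
    _ ≤ Y ^ δ * Y ^ (ρ + v + 7 * δ) := by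
        apply mul_le_mul_of_nonneg_right h2 (by positivity)
    _ = Y ^ (ρ + v + 8 * δ) := by
        rw [← Real.rpow_add hY0']
        congr 1
        ring
    _ ≤ Y ^ (ρ + v + η) := by
        apply Real.rpow_le_rpow_of_exponent_le hY1.le
        linarith

end Pool.Agent.Lib.AbcL
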