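import Mathlib
import Pool.Agent.Lib.AbcL.Cheap
import Pool.Agent.Lib.AbcL.CountT3

/-!
# The case analysis for one triple
-/

open Finset Filter Topology

namespace Pool.Agent.Lib.AbcL

open Pool.Agent.Lib.Pabc2 Pool.Agent.Lib.Pabc1 Pool.Agent.Lib.Pabc8

/-- The primes of the label `l` with `log p ≤ z`. -/
noncomputable def sml (t : ℕ × ℕ) (z : ℝ) (l : Fin 3) : Finset ℕ :=
  (N t).primeFactors.filter (fun p => lab t p = l ∧ Real.log (p : ℝ) ≤ z)

/-- The primes with `log p > z`. -/
noncomputable def big (t : ℕ × ℕ) (z : ℝ) : Finset ℕ :=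
  (N t).primeFactors.filter (fun p : ℕ => z < Real.log (p : ℝ))

/-- The hypothesis of `count_T3`. -/
def HasT3 (n : ℕ) (ρ v : ℝ) (t : ℕ × ℕ) : Prop :=
  ∃ l : Fin 3, ∃ Q ⊆ (N t).primeFactors, (∀ p ∈ Q, lab t p = l) ∧
    ((∏ p ∈ Q, p : ℕ) : ℝ) ≤ (n : ℝ) ^ ρ ∧
    5 / 2 * Real.log n ≤ (∑ p ∈ Q, u t p) * ht t ∧
    tw t - wt t l ≤ 2 * v * Real.log n

/-- The structural hypothesis of the root class count. -/
def HasK (n : ℕ) (d σ c : ℝ) (k : ℕ) (t : ℕ × ℕ) : Prop :=
  ∃ S ⊆ (N t).primeFactors, ∃ l : Fin 3, ((∏ p ∈ S, p : ℕ) : ℝ) ≤ (n : ℝ) ^ σ ∧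
    d ≤ ∑ p ∈ S.filter (fun p => lab t p = l), u t p ∧
    ∃ H ⊆ (N t).primeFactors \ S, H.card ≤ k ∧
      ∑ p ∈ ((N t).primeFactors \ (S ∪ H)).filter (fun p => lab t p ≠ l), u t p ≤ c

/-- The structural hypothesis of the archimedean class count. -/
def HasInf (c : ℝ) (k : ℕ) (t : ℕ × ℕ) : Prop :=
  Real.log t.1 ≤ ht t / 2 ∧ ∃ H ⊆ (N t).primeFactors, H.card ≤ k ∧
    ∑ p ∈ ((N t).primeFactors \ H).filter (fun p => lab t p ≠ 0), u t p ≤ c

theorem big_card_le {t : ℕ × ℕ} {z x : ℝ} (htw : tw t ≤ x) : ((big t z).card : ℝ) * z ≤ x := by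
  refine le_trans ?_ htw
  calc ((big t z).card : ℝ) * z = ∑ _p ∈ big t z, z := by rw [Finset.sum_const, nsmul_eq_mul]
    _ ≤ ∑ p ∈ big t z, Real.log (p : ℝ) :=
        Finset.sum_le_sum (fun p hp => (Finset.mem_filter.mp hp).2.le)
    _ ≤ tw t := Finset.sum_le_sum_of_subset_of_nonneg (Finset.filter_subset _ _)
        (fun p _ _ => Real.log_natCast_nonneg p)

theorem rest_le {t : ℕ × ℕ} (hI : IsT t) {z : ℝ} (S : Finset ℕ) {i j l : Fin 3} (hij : i ≠ j)
    (hil : i ≠ l) (hjl : j ≠ l) :
    ∑ p ∈ ((N t).primeFactors \ (S ∪ (big t z \ S))).filter (fun p => lab t p ≠ l), u t p ≤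
      ∑ p ∈ sml t z i \ S, u t p + ∑ p ∈ sml t z j \ S, u t p := by
  classical
  have hd : Disjoint (sml t z i \ S) (sml t z j \ S) := by
    rw [Finset.disjoint_left]
    intro p hp hp2
    have h1 := (Finset.mem_filter.mp (Finset.mem_sdiff.mp hp).1).2.1
    have h2 := (Finset.mem_filter.mp (Finset.mem_sdiff.mp hp2).1).2.1
    exact hij (h1.symm.trans h2)
  rw [← Finset.sum_union hd]
  apply Finset.sum_le_sum_of_subset_of_nonneg
  · intro p hp
    rw [Finset.mem_filter, Finset.mem_sdiff, Finset.mem_union, not_or] at hp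
    obtain ⟨⟨h1, h2, h3⟩, h4⟩ := hp
    have h5 : Real.log (p : ℝ) ≤ z := by
      by_contra h6
      push Not at h6
      apply h3
      rw [Finset.mem_sdiff]
      exact ⟨Finset.mem_filter.mpr ⟨h1, h6⟩, h2⟩
    have h7 : lab t p = i ∨ lab t p = j := by omega
    rw [Finset.mem_union, Finset.mem_sdiff, Finset.mem_sdiff]
    rcases h7 with h7 | h7
    · left; exact ⟨Finset.mem_filter.mpr ⟨h1, h7, h5⟩, h2⟩
    · right; exact ⟨Finset.mem_filter.mpr ⟨h1, h7, h5⟩, h2⟩
  · intro p _ _
    exact u_nonneg hI p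

theorem sdiff_sum_le {t : ℕ × ℕ} (hI : IsT t) (A S : Finset ℕ) :
    ∑ p ∈ A \ S, u t p ≤ ∑ p ∈ A, u t p :=
  Finset.sum_le_sum_of_subset_of_nonneg Finset.sdiff_subset (fun p _ _ => u_nonneg hI p)

theorem prod_le_rpow {t : ℕ × ℕ} {Q : Finset ℕ} (hQ : Q ⊆ (N t).primeFactors) {n : ℕ}
    (hn : 1 ≤ n) {a : ℝ} (h : ∑ p ∈ Q, Real.log (p : ℝ) ≤ a * Real.log n) :
    ((∏ p ∈ Q, p : ℕ) : ℝ) ≤ (n : ℝ) ^ a := by
  have hp : ∀ p ∈ Q, p.Prime := fun p hp => Nat.prime_of_mem_primeFactors (hQ hp)
  have hn0 : (0 : ℝ) < n := by exact_mod_cast hn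
  have h0 : (0 : ℝ) < ((∏ p ∈ Q, p : ℕ) : ℝ) := by
    exact_mod_cast Finset.prod_pos (fun p hq => (hp p hq).pos)
  rw [← Real.log_le_log_iff h0 (by positivity), Real.log_rpow hn0]
  refine le_trans (le_of_eq ?_) h
  push_cast
  exact Real.log_prod (fun p hq => by exact_mod_cast (hp p hq).ne_zero)

theorem tw_le {t : ℕ × ℕ} {n : ℕ} (hrd : rd t ≤ n) : tw t ≤ Real.log n := by
  have hp : ∀ p ∈ (N t).primeFactors, p.Prime := fun p hp => Nat.prime_of_mem_primeFactors hp
  have e1 : Real.log ((∏ p ∈ (N t).primeFactors, p : ℕ) : ℝ) = tw t := by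
    push_cast
    exact Real.log_prod (fun p hq => by exact_mod_cast (hp p hq).ne_zero)
  rw [← e1]
  apply Real.log_le_log
  · exact_mod_cast Finset.prod_pos (fun p hq => (hp p hq).pos)
  · exact_mod_cast hrd

/-- The cheap modulus inside a label with many small primes. -/
theorem cheap_small {t : ℕ × ℕ} (hI : IsT t) {x s e : ℝ} (hx : 0 < x) (hs : 0 < s) (hs1 : s ≤ 1)
    (htw : tw t ≤ x) {l : Fin 3} (hm : e < ∑ p ∈ sml t (s * x) l, u t p) :
    ∃ Q ⊆ (N t).primeFactors, (∀ p ∈ Q, lab t p = l) ∧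
      ∑ p ∈ Q, Real.log (p : ℝ) ≤ 2 * s * x ∧ s * e / 2 ≤ ∑ p ∈ Q, u t p := by
  classical
  have h1 : ∑ p ∈ sml t (s * x) l, Real.log (p : ℝ) ≤ x := by
    refine le_trans ?_ htw
    exact Finset.sum_le_sum_of_subset_of_nonneg (Finset.filter_subset _ _)
      (fun p _ _ => Real.log_natCast_nonneg p)
  obtain ⟨Q, hQ, h2, h3⟩ := cheapQ (fun p : ℕ => Real.log (p : ℝ)) (u t) (s * x) (by positivity)
    (sml t (s * x) l) x (fun p _ => Real.log_natCast_nonneg p) (fun p _ => u_nonneg hI p)
    (fun p hp => (Finset.mem_filter.mp hp).2.2) h1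
  refine ⟨Q, hQ.trans (Finset.filter_subset _ _), fun p hp => (Finset.mem_filter.mp (hQ hp)).2.1,
    by linarith, ?_⟩
  have h4 : 0 ≤ ∑ p ∈ Q, u t p := Finset.sum_nonneg (fun p _ => u_nonneg hI p)
  have h5 : x * (s * e) ≤ x * (2 * ∑ p ∈ Q, u t p) := by
    calc x * (s * e) = s * x * e := by ring
      _ ≤ s * x * ∑ p ∈ sml t (s * x) l, u t p :=
          mul_le_mul_of_nonneg_left hm.le (by positivity)
      _ ≤ (x + s * x) * ∑ p ∈ Q, u t p := h3
      _ ≤ (x + 1 * x) * ∑ p ∈ Q, u t p := by
          apply mul_le_mul_of_nonneg_right _ h4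
          have := mul_le_mul_of_nonneg_right hs1 hx.le
          linarith
      _ = _ := by ring
  have h6 := le_of_mul_le_mul_left h5 hx
  linarith

/-- If a label has large mass but few small primes, it contains a massive big prime. -/
theorem massive {t : ℕ × ℕ} {z : ℝ} {k : ℕ} (hk : ((big t z).card : ℝ) ≤ k) {l : Fin 3}
    {m e' : ℝ} (hm : m ≤ ms t l) (hsm : ∑ p ∈ sml t z l, u t p ≤ e') (he : e' < m) :
    ∃ q ∈ (N t).primeFactors, lab t q = l ∧ m - e' ≤ k * u t q := by
  classical
  set B := (big t z).filter (fun p => lab t p = l) with hB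
  have h1 : ms t l = ∑ p ∈ sml t z l, u t p + ∑ p ∈ B, u t p := by
    rw [← Finset.sum_union]
    · unfold ms
      apply Finset.sum_congr _ (fun _ _ => rfl)
      ext p
      simp only [sml, hB, big, Finset.mem_union, Finset.mem_filter]
      constructor
      · rintro ⟨h1, h2⟩
        rcases le_or_gt (Real.log (p : ℝ)) z with h3 | h3
        · left; exact ⟨h1, h2, h3⟩
        · right; exact ⟨⟨h1, h3⟩, h2⟩
      · rintro (⟨h1, h2, h3⟩ | ⟨⟨h1, h3⟩, h2⟩)
        · exact ⟨h1, h2⟩
        · exact ⟨h1, h2⟩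
    · rw [Finset.disjoint_left]
      intro p hp hp2
      simp only [sml, hB, big, Finset.mem_filter] at hp hp2
      linarith [hp.2.2, hp2.1.2]
  have h2 : m - e' ≤ ∑ p ∈ B, u t p := by linarith
  have hne : B.Nonempty := by
    rw [Finset.nonempty_iff_ne_empty]
    intro h
    rw [h, Finset.sum_empty] at h2
    linarith
  obtain ⟨q, hq, hmax⟩ := Finset.exists_max_image B (u t) hne
  have hq' := Finset.mem_filter.mp hq
  have hq'' := Finset.mem_filter.mp hq'.1
  refine ⟨q, hq''.1, hq'.2, ?_⟩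
  have h3 : ∑ p ∈ B, u t p ≤ (B.card : ℝ) * u t q := by
    rw [← nsmul_eq_mul]
    exact Finset.sum_le_card_nsmul B (u t) (u t q) hmax
  have hBc : (B.card : ℝ) ≤ k :=
    le_trans (by exact_mod_cast Finset.card_le_card (Finset.filter_subset _ _)) hk
  have hBpos : (0 : ℝ) < B.card := by exact_mod_cast hne.card_pos
  have hu : 0 ≤ u t q := by
    by_contra h
    push Not at h
    have : (B.card : ℝ) * u t q < 0 := mul_neg_of_pos_of_neg hBpos h
    linarith
  have := mul_le_mul_of_nonneg_right hBc hu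
  linarith

/-- The case analysis. -/
theorem cases {t : ℕ × ℕ} (hI : IsT t) (hbig : 200 ≤ ht t) {n : ℕ} (hn : 2 ≤ n)
    (hrd : rd t ≤ n) {s e e' K : ℝ} (hs : 0 < s) (hs1 : s ≤ 1) (he : 0 < e) (he1 : e ≤ 1 / 4)
    (he'1 : e' ≤ 1 / 4) {k : ℕ} (hk : 1 / s ≤ k) (hk2 : (k : ℝ) ≤ 2 / s)
    (hj : ∀ l : Fin 3, ∑ p ∈ sml t (s * Real.log n) l, u t p ≤ e' ∨
      e < ∑ p ∈ sml t (s * Real.log n) l, u t p)
    (hK : K * Real.log n ≤ ht t) (hKd : 5 / 2 ≤ s * e / 4 * K) :
    HasT3 n (2 * s) (1 / 3) t ∨ HasK n (s * e / 4) (1 / 3 + 2 * s) (2 * e') k t ∨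
      HasInf (2 * e') k t := by
  classical
  set x := Real.log (n : ℝ) with hx
  have hx0 : 0 < x := Real.log_pos (by exact_mod_cast hn)
  have htw : tw t ≤ x := tw_le hrd
  have hn1 : 1 ≤ n := by omega
  have hH := ht_pos hI
  set d := s * e / 4 with hd
  have hd0 : 0 < d := by positivity
  have hbc : ((big t (s * x)).card : ℝ) ≤ k := by
    have h1 := big_card_le (z := s * x) htw
    refine le_trans ?_ hk
    rw [le_div_iff₀ hs]
    have h2 : ((big t (s * x)).card : ℝ) * s * x ≤ 1 * x := by linarith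
    exact le_of_mul_le_mul_right h2 hx0
  have hHcard : ∀ S : Finset ℕ, (big t (s * x) \ S).card ≤ k := by
    intro S
    have h1 : ((big t (s * x) \ S).card : ℝ) ≤ k :=
      le_trans (by exact_mod_cast Finset.card_le_card Finset.sdiff_subset) hbc
    exact_mod_cast h1
  have hHsub : ∀ S : Finset ℕ, big t (s * x) \ S ⊆ (N t).primeFactors \ S := fun S =>
    Finset.sdiff_subset_sdiff (Finset.filter_subset _ _) (Finset.Subset.refl _)
  have hwtle : ∀ i, wt t i ≤ tw t := fun i => by
    unfold wt tw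
    exact Finset.sum_le_sum_of_subset_of_nonneg (Finset.filter_subset _ _)
      (fun p _ _ => Real.log_natCast_nonneg p)
  -- the label of maximal weight
  obtain ⟨m, -, hmax⟩ := Finset.exists_max_image (Finset.univ : Finset (Fin 3)) (wt t)
    Finset.univ_nonempty
  have hmax' : ∀ i, wt t i ≤ wt t m := fun i => hmax i (Finset.mem_univ i)
  obtain ⟨i, j, hij, him, hjm⟩ : ∃ i j : Fin 3, i ≠ j ∧ i ≠ m ∧ j ≠ m := by
    have hm3 : m = 0 ∨ m = 1 ∨ m = 2 := by omega
    rcases hm3 with rfl | rfl | rfl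
    · exact ⟨1, 2, by decide, by decide, by decide⟩
    · exact ⟨0, 2, by decide, by decide, by decide⟩
    · exact ⟨0, 1, by decide, by decide, by decide⟩
  have hsum := wt_sum t hij him hjm
  by_cases hm : e < ∑ p ∈ sml t (s * x) m, u t p
  · -- a modulus in the member of maximal weight
    left
    obtain ⟨Q, hQ, hQl, hQw, hQm⟩ := cheap_small hI hx0 hs hs1 htw hm
    refine ⟨m, Q, hQ, hQl, prod_le_rpow hQ hn1 hQw, ?_, ?_⟩
    · have h1 : 5 / 2 * x ≤ (d * K) * x := mul_le_mul_of_nonneg_right hKd hx0.le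
      calc 5 / 2 * x ≤ d * (K * x) := by linarith
        _ ≤ d * ht t := mul_le_mul_of_nonneg_left hK hd0.le
        _ ≤ (∑ p ∈ Q, u t p) * ht t := by
            apply mul_le_mul_of_nonneg_right _ hH.le
            have : d ≤ s * e / 2 := by
              rw [hd]
              have : 0 < s * e := by positivity
              linarith
            linarith
    · have h1 := hmax' i
      have h2 := hmax' j
      have h3 := wt_nonneg t i
      rw [← hx]
      linarith
  have hm' : ∑ p ∈ sml t (s * x) m, u t p ≤ e' := by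
    rcases hj m with h | h
    · exact h
    · exact absurd h hm
  -- a lemma for two spread labels
  have two : ∀ i j : Fin 3, i ≠ j → i ≠ m → j ≠ m → wt t i ≤ wt t j →
      e < ∑ p ∈ sml t (s * x) j, u t p → HasK n d (1 / 3 + 2 * s) (2 * e') k t := by
    intro i j hij him hjm hwij hj'
    obtain ⟨Q, hQ, hQl, hQw, hQm⟩ := cheap_small hI hx0 hs hs1 htw hj'
    have hsum := wt_sum t hij him hjm
    have hwi3 : wt t i ≤ 1 / 3 * x := by
      have h1 := hmax' j
      linarith
    set Pi := (N t).primeFactors.filter (fun p => lab t p = i) with hPi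
    have hS : Pi ∪ Q ⊆ (N t).primeFactors := Finset.union_subset (Finset.filter_subset _ _) hQ
    refine ⟨Pi ∪ Q, hS, j, prod_le_rpow hS hn1 ?_, ?_, big t (s * x) \ (Pi ∪ Q), hHsub _,
      hHcard _, ?_⟩
    · have h1 : ∑ p ∈ Pi ∪ Q, Real.log (p : ℝ) ≤
          ∑ p ∈ Pi, Real.log (p : ℝ) + ∑ p ∈ Q, Real.log (p : ℝ) := by
        have h2 := Finset.sum_union_inter (s₁ := Pi) (s₂ := Q) (f := fun p : ℕ => Real.log (p : ℝ))
        have h3 : 0 ≤ ∑ p ∈ Pi ∩ Q, Real.log (p : ℝ) :=
          Finset.sum_nonneg (fun p _ => Real.log_natCast_nonneg p)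
        linarith
      have h2 : ∑ p ∈ Pi, Real.log (p : ℝ) = wt t i := rfl
      linarith
    · have h1 : Q ⊆ (Pi ∪ Q).filter (fun p => lab t p = j) := by
        intro p hp
        rw [Finset.mem_filter]
        exact ⟨Finset.mem_union_right _ hp, hQl p hp⟩
      have h2 := Finset.sum_le_sum_of_subset_of_nonneg h1 (f := u t) (fun p _ _ => u_nonneg hI p)
      have h3 : 0 < s * e := by positivity
      linarith
    · refine (rest_le hI (z := s * x) (Pi ∪ Q) him (l := j) hij hjm.symm).trans ?_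
      have h1 : sml t (s * x) i \ (Pi ∪ Q) = ∅ := by
        rw [Finset.sdiff_eq_empty_iff_subset]
        intro p hp
        have hp' := Finset.mem_filter.mp hp
        exact Finset.mem_union_left _ (Finset.mem_filter.mpr ⟨hp'.1, hp'.2.1⟩)
      rw [h1, Finset.sum_empty, zero_add]
      have h2 := sdiff_sum_le hI (sml t (s * x) m) (Pi ∪ Q)
      have h3 : 0 ≤ ∑ p ∈ sml t (s * x) m, u t p := Finset.sum_nonneg (fun p _ => u_nonneg hI p)
      linarith
  -- a lemma for one spread label
  have one : ∀ i j : Fin 3, i ≠ j → i ≠ m → j ≠ m →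
      e < ∑ p ∈ sml t (s * x) i, u t p → ∑ p ∈ sml t (s * x) j, u t p ≤ e' →
      HasK n d (1 / 3 + 2 * s) (2 * e') k t := by
    intro i j hij him hjm hi' hj'
    obtain ⟨Q, hQ, hQl, hQw, hQm⟩ := cheap_small hI hx0 hs hs1 htw hi'
    refine ⟨Q, hQ, i, prod_le_rpow hQ hn1 (by nlinarith), ?_, big t (s * x) \ Q, hHsub _,
      hHcard _, ?_⟩
    · rw [Finset.filter_true_of_mem hQl]
      have h3 : 0 < s * e := by positivity
      linarith
    · refine (rest_le hI (z := s * x) Q hjm hij.symm him.symm).trans ?_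
      have h2 := sdiff_sum_le hI (sml t (s * x) m) Q
      have h3 := sdiff_sum_le hI (sml t (s * x) j) Q
      linarith
  rcases hj i with hi0 | hi1
  · rcases hj j with hj0 | hj1
    · -- no spread label
      have hall : ∀ l : Fin 3, ∑ p ∈ sml t (s * x) l, u t p ≤ e' := by
        intro l
        have : l = i ∨ l = j ∨ l = m := by omega
        rcases this with rfl | rfl | rfl
        · exact hi0
        · exact hj0
        · exact hm'
      by_cases hal : Real.log t.1 ≤ ht t / 2
      · right; right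
        refine ⟨hal, big t (s * x), Finset.filter_subset _ _, by exact_mod_cast hbc, ?_⟩
        have h1 := rest_le hI (z := s * x) ∅ (i := 1) (j := 2) (l := 0) (by decide) (by decide)
          (by decide)
        rw [Finset.sdiff_empty, Finset.empty_union, Finset.sdiff_empty, Finset.sdiff_empty] at h1
        have h2 := hall 1
        have h3 := hall 2
        linarith
      · push Not at hal
        right; left
        have hms : ∀ l : Fin 3, 1 / 2 ≤ ms t l := by
          intro l
          by_cases hl : (0 : Fin 3) = l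
          · subst hl
            unfold ms
            rw [sum_lab_eq hI 0, le_div_iff₀ hH]
            have : comp t 0 = t.1 := by simp [comp]
            rw [this]
            linarith
          · have := ms_ge hI hbig hl
            linarith
        have hkpos : (0 : ℝ) < k := lt_of_lt_of_le (by positivity) hk
        have hq : ∀ l : Fin 3, ∃ q ∈ (N t).primeFactors, lab t q = l ∧ d ≤ u t q := by
          intro l
          obtain ⟨q, hq1, hq2, hq3⟩ := massive (t := t) hbc (hms l) (hall l) (by linarith)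
          refine ⟨q, hq1, hq2, ?_⟩
          have h1 : 1 / 4 ≤ (k : ℝ) * u t q := by linarith
          have h2 : (k : ℝ) * u t q ≤ 2 / s * u t q :=
            mul_le_mul_of_nonneg_right hk2 (u_nonneg hI q)
          have h3 : 1 / 4 * s ≤ 2 * u t q := by
            have h4 : 1 / 4 ≤ 2 / s * u t q := by linarith
            have h5 := mul_le_mul_of_nonneg_right h4 hs.le
            have h6 : 2 / s * u t q * s = 2 * u t q := by field_simp
            linarith
          have h7 : s * e ≤ s * (1 / 4) := mul_le_mul_of_nonneg_left he1 hs.le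
          rw [hd]
          linarith
        choose q hqN hql hqd using hq
        -- the lightest of the three primes
        obtain ⟨l, -, hmin⟩ := Finset.exists_min_image (Finset.univ : Finset (Fin 3))
          (fun l => Real.log (q l : ℝ)) Finset.univ_nonempty
        have hqinj : Function.Injective q := by
          intro a b hab
          have h1 := hql a
          rw [hab, hql b] at h1
          exact h1.symm
        have hsum3 : ∑ l : Fin 3, Real.log (q l : ℝ) ≤ x := by
          refine le_trans ?_ htw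
          unfold tw
          rw [← Finset.sum_image (s := Finset.univ) (g := q) (f := fun p : ℕ => Real.log (p : ℝ))
            (fun a _ b _ h => hqinj h)]
          apply Finset.sum_le_sum_of_subset_of_nonneg
          · intro p hp
            obtain ⟨a, -, rfl⟩ := Finset.mem_image.mp hp
            exact hqN a
          · intro p _ _
            exact Real.log_natCast_nonneg p
        have hl3 : Real.log (q l : ℝ) ≤ 1 / 3 * x := by
          have h1 : ∑ _a : Fin 3, Real.log (q l : ℝ) ≤ ∑ a : Fin 3, Real.log (q a : ℝ) :=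
            Finset.sum_le_sum (fun a ha => hmin a ha)
          rw [Finset.sum_const, nsmul_eq_mul, Finset.card_univ, Fintype.card_fin] at h1
          push_cast at h1
          linarith
        have hS : ({q l} : Finset ℕ) ⊆ (N t).primeFactors :=
          Finset.singleton_subset_iff.mpr (hqN l)
        obtain ⟨a, b, hab, hal', hbl'⟩ : ∃ a b : Fin 3, a ≠ b ∧ a ≠ l ∧ b ≠ l := by
          have hm3 : l = 0 ∨ l = 1 ∨ l = 2 := by omega
          rcases hm3 with rfl | rfl | rfl
          · exact ⟨1, 2, by decide, by decide, by decide⟩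
          · exact ⟨0, 2, by decide, by decide, by decide⟩
          · exact ⟨0, 1, by decide, by decide, by decide⟩
        refine ⟨{q l}, hS, l, prod_le_rpow hS hn1 ?_, ?_, big t (s * x) \ {q l}, hHsub _,
          hHcard _, ?_⟩
        · rw [Finset.sum_singleton]
          nlinarith
        · rw [Finset.filter_true_of_mem (by
            intro p hp
            rw [Finset.mem_singleton] at hp
            rw [hp]
            exact hql l), Finset.sum_singleton]
          exact hqd l
        · refine (rest_le hI (z := s * x) {q l} hab hal' hbl').trans ?_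
          have h2 := sdiff_sum_le hI (sml t (s * x) a) {q l}
          have h3 := sdiff_sum_le hI (sml t (s * x) b) {q l}
          have h4 := hall a
          have h5 := hall b
          linarith
    · exact Or.inr (Or.inl (one j i hij.symm hjm him hj1 hi0))
  · rcases hj j with hj0 | hj1
    · exact Or.inr (Or.inl (one i j hij him hjm hi1 hj0))
    · rcases le_total (wt t i) (wt t j) with h | h
      · exact Or.inr (Or.inl (two i j hij him hjm h hj1))
      · exact Or.inr (Or.inl (two j i hij.symm hjm him h hi1))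

end Pool.Agent.Lib.AbcL
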