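import Mathlib
import Pool.Agent.Lib.Pabc2.Count

/-!
# Dyadic decomposition with respect to the radical
-/

open Finset Filter Topology

namespace Pool.Agent.Lib.AbcL

open Pool.Agent.Lib.Pabc2

theorem ev_log2_le (ε : ℝ) (hε : 0 < ε) :
    ∀ᶠ n : ℕ in atTop, ((Nat.log 2 n : ℕ) : ℝ) + 2 ≤ (n : ℝ) ^ ε := by
  have hl2 : 0 < Real.log 2 := Real.log_pos (by norm_num)
  have h1 := (isLittleO_log_rpow_atTop hε).bound (show 0 < Real.log 2 / 2 by positivity)
  have h2 := (tendsto_rpow_atTop hε).eventually_ge_atTop 4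
  have h3 := (h1.and (h2.and (Filter.eventually_ge_atTop (1 : ℝ))))
  filter_upwards [(tendsto_natCast_atTop_atTop (R := ℝ)).eventually h3] with n hn
  obtain ⟨ha, hb, hc⟩ := hn
  have hXε : 0 ≤ (n : ℝ) ^ ε := Real.rpow_nonneg (Nat.cast_nonneg _) _
  rw [Real.norm_of_nonneg (Real.log_nonneg hc), Real.norm_of_nonneg hXε] at ha
  have hlog : ((Nat.log 2 n : ℕ) : ℝ) ≤ Real.log n / Real.log 2 := by
    have := Real.natLog_le_logb n 2
    simpa [Real.logb] using this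
  have h5 : Real.log n / Real.log 2 ≤ (n : ℝ) ^ ε / 2 := by
    rw [div_le_iff₀ hl2]
    linarith
  linarith

theorem rd_pos (t : ℕ × ℕ) : 1 ≤ rd t :=
  Finset.prod_pos (fun _ hp => (Nat.prime_of_mem_primeFactors hp).pos)

/-- From a count relative to a bound `m` with `rd t ≤ m ≤ 2 rd t` to a count relative to the
radical of the triple itself. -/
theorem dyadic {α β : ℝ} (hα : 0 < α) (hβ : 0 < β)
    (hall : ∀ᶠ n : ℕ in atTop, ∀ T : Finset (ℕ × ℕ), (∀ t ∈ T, IsT t ∧ rd t ≤ n) →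
      (T.card : ℝ) ≤ (n : ℝ) ^ β)
    (P Q : ℕ → ℕ × ℕ → Prop)
    (hcount : ∀ᶠ n : ℕ in atTop, ∀ T : Finset (ℕ × ℕ),
      (∀ t ∈ T, IsT t ∧ rd t ≤ n ∧ Q n t) → (T.card : ℝ) ≤ (n : ℝ) ^ α)
    (hPQ : ∀ᶠ m : ℕ in atTop, ∀ n : ℕ, m ≤ 2 * n → (n : ℝ) ^ (α / β) ≤ m → ∀ t : ℕ × ℕ,
      IsT t → rd t ≤ m → m ≤ 2 * rd t → P n t → Q m t)
    (ε : ℝ) (hε : 0 < ε) :
    ∀ᶠ n : ℕ in atTop, ∀ T : Finset (ℕ × ℕ),
      (∀ t ∈ T, IsT t ∧ rd t ≤ n ∧ P n t) → (T.card : ℝ) ≤ (n : ℝ) ^ (α + ε) := by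
  classical
  obtain ⟨m0, hm0⟩ := Filter.eventually_atTop.mp (hcount.and hPQ)
  have hlim : Tendsto (fun n : ℕ => (n : ℝ)) atTop atTop := tendsto_natCast_atTop_atTop
  -- the threshold between small and large radicals
  have hfl : Tendsto (fun n : ℕ => ⌊(n : ℝ) ^ (α / β)⌋₊) atTop atTop :=
    tendsto_nat_floor_atTop.comp ((tendsto_rpow_atTop (div_pos hα hβ)).comp hlim)
  filter_upwards [hfl.eventually hall, hfl.eventually (eventually_ge_atTop m0),
    ev_log2_le (ε / 2) (by positivity),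
    ((tendsto_rpow_atTop (show 0 < ε / 2 by positivity)).comp hlim).eventually_ge_atTop
      (2 ^ α), eventually_ge_atTop 1] with n h1 h2 h3 h4 hn1 T hT
  simp only [Function.comp] at h4
  have hn0 : (0 : ℝ) < n := by exact_mod_cast hn1
  have hn1' : (1 : ℝ) ≤ n := by exact_mod_cast hn1
  set z : ℕ := ⌊(n : ℝ) ^ (α / β)⌋₊ with hz
  have hzle : (z : ℝ) ≤ (n : ℝ) ^ (α / β) := Nat.floor_le (by positivity)
  have hzn : (n : ℝ) ^ (α / β) < z + 1 := Nat.lt_floor_add_one _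
  set S0 := T.filter (fun t => rd t ≤ z) with hS0
  set S : ℕ → Finset (ℕ × ℕ) := fun j => T.filter (fun t => z < rd t ∧ Nat.log 2 (rd t) = j)
    with hS
  have hcover : T ⊆ S0 ∪ (Finset.range (Nat.log 2 n + 1)).biUnion S := by
    intro t ht'
    obtain ⟨hI, hrd, hP⟩ := hT t ht'
    rw [Finset.mem_union]
    rcases le_or_gt (rd t) z with h | h
    · left; exact Finset.mem_filter.mpr ⟨ht', h⟩
    · right
      rw [Finset.mem_biUnion]
      refine ⟨Nat.log 2 (rd t), ?_, Finset.mem_filter.mpr ⟨ht', h, rfl⟩⟩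
      rw [Finset.mem_range]
      have := Nat.log_mono_right (b := 2) hrd
      omega
  have c0 : (S0.card : ℝ) ≤ (n : ℝ) ^ α := by
    have h5 := h1 S0 (by
      intro t ht'
      rw [hS0, Finset.mem_filter] at ht'
      exact ⟨(hT t ht'.1).1, ht'.2⟩)
    refine h5.trans ?_
    calc (z : ℝ) ^ β ≤ ((n : ℝ) ^ (α / β)) ^ β :=
          Real.rpow_le_rpow (Nat.cast_nonneg _) hzle hβ.le
      _ = (n : ℝ) ^ α := by
          rw [← Real.rpow_mul hn0.le]
          congr 1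
          field_simp
  have cj : ∀ j ∈ Finset.range (Nat.log 2 n + 1), ((S j).card : ℝ) ≤
      2 ^ α * (n : ℝ) ^ α := by
    intro j hj
    rcases (S j).eq_empty_or_nonempty with he | ⟨t0, ht0⟩
    · rw [he, Finset.card_empty, Nat.cast_zero]
      positivity
    set m : ℕ := 2 ^ (j + 1) with hm
    have hmem : ∀ t ∈ S j, IsT t ∧ rd t ≤ n ∧ P n t ∧ z < rd t ∧ rd t ≤ m ∧ m ≤ 2 * rd t := by
      intro t ht'
      simp only [hS] at ht'
      rw [Finset.mem_filter] at ht'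
      obtain ⟨hI, hrd, hP⟩ := hT t ht'.1
      have hne : rd t ≠ 0 := by have := rd_pos t; omega
      refine ⟨hI, hrd, hP, ht'.2.1, ?_, ?_⟩
      · rw [hm, ← ht'.2.2]
        exact (Nat.lt_pow_succ_log_self (by norm_num) _).le
      · rw [hm, ← ht'.2.2, pow_succ, mul_comm]
        exact Nat.mul_le_mul_left 2 (Nat.pow_log_le_self 2 hne)
    obtain ⟨-, hrd0, -, hz0, hm1, hm2⟩ := hmem t0 ht0
    have hmn : m ≤ 2 * n := by omega
    have hzm : (n : ℝ) ^ (α / β) ≤ m := by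
      have : ((z + 1 : ℕ) : ℝ) ≤ m := by exact_mod_cast (by omega : z + 1 ≤ m)
      push_cast at this
      linarith
    have hmm0 : m0 ≤ m := by omega
    obtain ⟨hA, hB⟩ := hm0 m hmm0
    have h5 := hA (S j) (by
      intro t ht'
      obtain ⟨hI, hrd, hP, hzt, ht1, ht2⟩ := hmem t ht'
      exact ⟨hI, ht1, hB n hmn hzm t hI ht1 ht2 hP⟩)
    refine h5.trans ?_
    calc (m : ℝ) ^ α ≤ (2 * (n : ℝ)) ^ α := by
          apply Real.rpow_le_rpow (Nat.cast_nonneg _) _ hα.le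
          exact_mod_cast hmn
      _ = 2 ^ α * (n : ℝ) ^ α := Real.mul_rpow (by norm_num) hn0.le
  set B : ℝ := (n : ℝ) ^ α with hB
  have hB0 : 0 < B := by positivity
  have h21 : (1 : ℝ) ≤ 2 ^ α := Real.one_le_rpow (by norm_num) hα.le
  calc (T.card : ℝ) ≤ ((S0 ∪ (Finset.range (Nat.log 2 n + 1)).biUnion S).card : ℝ) := by
        exact_mod_cast Finset.card_le_card hcover
    _ ≤ (S0.card : ℝ) + ∑ j ∈ Finset.range (Nat.log 2 n + 1), ((S j).card : ℝ) := by
        exact_mod_cast (Finset.card_union_le _ _).trans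
          (Nat.add_le_add_left Finset.card_biUnion_le _)
    _ ≤ 2 ^ α * B + ∑ _j ∈ Finset.range (Nat.log 2 n + 1), 2 ^ α * B := by
        have e1 := Finset.sum_le_sum cj
        have e2 : B ≤ 2 ^ α * B := by
          have := mul_le_mul_of_nonneg_right h21 hB0.le
          linarith
        linarith
    _ = (((Nat.log 2 n : ℕ) : ℝ) + 2) * (2 ^ α) * B := by
        rw [Finset.sum_const, nsmul_eq_mul, Finset.card_range]
        push_cast
        ring
    _ ≤ (n : ℝ) ^ (ε / 2) * (n : ℝ) ^ (ε / 2) * B := by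
        apply mul_le_mul_of_nonneg_right _ hB0.le
        exact mul_le_mul h3 h4 (by positivity) (by positivity)
    _ = (n : ℝ) ^ (α + ε) := by
        rw [hB, ← Real.rpow_add hn0, ← Real.rpow_add hn0]
        congr 1
        ring

end Pool.Agent.Lib.AbcL
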