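import Mathlib
import Pool.Agent.Lib.AbcL.Dyadic
import Pool.Agent.Lib.Pabc12.Tall2
import Pool.Agent.Lib.Pabcx.MidFinal
import Pool.Agent.Lib.Pabc9.ThmEProof

/-!
# The triples with `c` above the third power root of the radical
-/

open Finset Filter Topology

namespace Pool.Agent.Lib.AbcL

open Pool.Agent.Lib.Pabc2 Pool.Agent.Lib.Pabc1

theorem abc_of {t : ℕ × ℕ} (h : IsT t) : Pabcv.AbcTriple t.1 t.2 (t.1 + t.2) := by
  have h1 := h.1
  have h2 := h.pos2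
  have h3 := h.2.2
  refine ⟨h1, h2, by omega, h3, ?_, ?_, rfl⟩
  · exact (Nat.coprime_self_add_right).mpr h3
  · exact (Nat.coprime_add_self_right).mpr h3.symm

theorem exp_ht {t : ℕ × ℕ} (h : IsT t) : Real.exp (ht t) = ((t.1 + t.2 : ℕ) : ℝ) := by
  have h1 := h.1
  have h2 := h.pos2
  unfold ht
  rw [Real.exp_log (by positivity)]
  push_cast
  rfl

/-- The range `(1/3 + e) log n ≤ log c ≤ K log n`. -/
theorem mid_count (e K : ℝ) (he : 0 < e) : ∃ κ : ℝ, 0 < κ ∧ ∀ᶠ n : ℕ in atTop,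
    ∀ T : Finset (ℕ × ℕ),
      (∀ t ∈ T, IsT t ∧ rd t ≤ n ∧ (1 / 3 + e) * Real.log n ≤ ht t ∧ ht t ≤ K * Real.log n) →
      (T.card : ℝ) ≤ (n : ℝ) ^ (2 / 3 - κ) := by
  classical
  obtain ⟨κ, hκ, Y0, hY0⟩ := Pabcx.mid_card_le e K he
  refine ⟨κ, hκ, ?_⟩
  have hlim2 : Tendsto (fun n : ℕ => (n : ℝ)) atTop atTop := tendsto_natCast_atTop_atTop
  filter_upwards [hlim2.eventually (eventually_ge_atTop Y0), eventually_ge_atTop 1]
    with n h1 hn1 T hT
  have hn0 : (0 : ℝ) < n := by exact_mod_cast hn1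
  obtain ⟨hfin, hle⟩ := hY0 n h1
  refine le_trans ?_ hle
  have hinj : Function.Injective (fun t : ℕ × ℕ => (t.1, t.2, t.1 + t.2)) := by
    rintro ⟨a, b⟩ ⟨a', b'⟩ h
    simp only [Prod.mk.injEq] at h
    rw [h.1, h.2.1]
  have hsub : ((T.image (fun t : ℕ × ℕ => (t.1, t.2, t.1 + t.2)) : Finset (ℕ × ℕ × ℕ)) :
      Set (ℕ × ℕ × ℕ)) ⊆ Pabcx.midTriples e K n := by
    intro v hv
    rw [Finset.mem_coe, Finset.mem_image] at hv
    obtain ⟨t, ht', rfl⟩ := hv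
    obtain ⟨hI, hrd, hh1, hh2⟩ := hT t ht'
    refine ⟨abc_of hI, ?_, ?_, ?_⟩
    · have : Pabcv.rad (t.1 * t.2 * (t.1 + t.2)) = rd t := rfl
      simp only
      rw [this]
      exact_mod_cast hrd
    · simp only
      rw [← exp_ht hI, Real.rpow_def_of_pos hn0, Real.exp_le_exp]
      linarith
    · simp only
      rw [← exp_ht hI, Real.rpow_def_of_pos hn0, Real.exp_le_exp]
      linarith
  have h2 := Set.ncard_le_ncard hsub hfin
  rw [Set.ncard_coe_finset, Finset.card_image_of_injective _ hinj] at h2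
  exact_mod_cast h2

theorem pf_nonempty {t : ℕ × ℕ} (h : IsT t) : (N t).primeFactors.Nonempty := by
  rw [Nat.nonempty_primeFactors]
  have h1 := h.1
  have h2 := h.pos2
  unfold N
  have h3 : 1 ≤ t.1 * t.2 := Nat.mul_pos h1 h2
  have h4 : 2 ≤ t.1 + t.2 := by omega
  nlinarith

/-- The height bound for all triples. -/
theorem height3 : ∀ᶠ n : ℕ in atTop, ∀ t : ℕ × ℕ, IsT t → rd t ≤ n → ht t ≤ (n : ℝ) ^ (3 : ℝ) := by
  filter_upwards [Pabc9.height Pabc9.thmE 1 (by norm_num), eventually_ge_atTop 1] with n h1 hn1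
    t hI hrd
  obtain ⟨R, hR⟩ := pf_nonempty hI
  have hn0 : (0 : ℝ) < n := by exact_mod_cast hn1
  have h2 := h1 t hI hrd R hR
  refine h2.trans ?_
  have h3 : ∏ p ∈ (N t).primeFactors.erase R, (p : ℝ) ≤ n := by
    have h4 : ∏ p ∈ (N t).primeFactors.erase R, p ≤ rd t := by
      unfold rd
      apply Finset.prod_le_prod_of_subset_of_one_le' (Finset.erase_subset _ _)
      intro p hp _
      exact (Nat.prime_of_mem_primeFactors hp).one_lt.le
    have h5 : ((∏ p ∈ (N t).primeFactors.erase R, p : ℕ) : ℝ) ≤ n := by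
      exact_mod_cast h4.trans hrd
    rw [Nat.cast_prod] at h5
    exact h5
  have h6 : 0 ≤ ∏ p ∈ (N t).primeFactors.erase R, (p : ℝ) :=
    Finset.prod_nonneg (fun p _ => Nat.cast_nonneg p)
  rw [Real.rpow_one, show (3 : ℝ) = ((3 : ℕ) : ℝ) by norm_num, Real.rpow_natCast]
  calc (∏ p ∈ (N t).primeFactors.erase R, (p : ℝ)) ^ 2 * (n : ℝ) ≤ (n : ℝ) ^ 2 * n := by
        gcongr
    _ = (n : ℝ) ^ 3 := by ring

/-- All triples with `c ≥ n ^ (1/3 + e)`: no upper bound for the height. -/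
theorem above_third (hF : Pabc12.FibreKStmt 3) (e : ℝ)
    (he : 0 < e) : ∃ κ : ℝ, 0 < κ ∧ κ ≤ 1 / 3 ∧ ∀ᶠ n : ℕ in atTop, ∀ T : Finset (ℕ × ℕ),
      (∀ t ∈ T, IsT t ∧ rd t ≤ n ∧ (1 / 3 + e) * Real.log n ≤ ht t) →
      (T.card : ℝ) ≤ (n : ℝ) ^ (2 / 3 - κ) := by
  classical
  obtain ⟨K, κ1, hκ1, h1⟩ := Pabc12.tall_of_fibre 3 (by norm_num) hF
  obtain ⟨κ2, hκ2, h2⟩ := mid_count e K he
  set κ : ℝ := min (min κ1 κ2 / 2) (1 / 3) with hκ
  have hκ0 : 0 < κ := by positivity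
  have hκa : κ ≤ κ1 / 2 := (min_le_left _ _).trans (by
    have := min_le_left κ1 κ2
    linarith)
  have hκb : κ ≤ κ2 / 2 := (min_le_left _ _).trans (by
    have := min_le_right κ1 κ2
    linarith)
  refine ⟨κ, hκ0, min_le_right _ _, ?_⟩
  have hlim2 : Tendsto (fun n : ℕ => (n : ℝ)) atTop atTop := tendsto_natCast_atTop_atTop
  filter_upwards [h1, h2, height3, ((tendsto_rpow_atTop hκ0).comp hlim2).eventually_ge_atTop 2,
    eventually_ge_atTop 1] with n g1 g2 g3 g4 hn1 T hT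
  simp only [Function.comp] at g4
  have hn0 : (0 : ℝ) < n := by exact_mod_cast hn1
  have hn1' : (1 : ℝ) ≤ n := by exact_mod_cast hn1
  have c1 := g1 (T.filter (fun t => K * Real.log n ≤ ht t)) (by
    intro t ht'
    rw [Finset.mem_filter] at ht'
    obtain ⟨hI, hrd, hh⟩ := hT t ht'.1
    exact ⟨hI, hrd, ht'.2, g3 t hI hrd⟩)
  have c2 := g2 (T.filter (fun t => ¬ K * Real.log n ≤ ht t)) (by
    intro t ht'
    rw [Finset.mem_filter, not_le] at ht'
    obtain ⟨hI, hrd, hh⟩ := hT t ht'.1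
    exact ⟨hI, hrd, hh, ht'.2.le⟩)
  have c3 : (T.card : ℝ) = (T.filter (fun t => K * Real.log n ≤ ht t)).card +
      (T.filter (fun t => ¬ K * Real.log n ≤ ht t)).card := by
    exact_mod_cast (Finset.card_filter_add_card_filter_not (s := T) _).symm
  have e1 : (n : ℝ) ^ (2 / 3 - κ1) ≤ (n : ℝ) ^ (2 / 3 - 2 * κ) :=
    Real.rpow_le_rpow_of_exponent_le hn1' (by linarith)
  have e2 : (n : ℝ) ^ (2 / 3 - κ2) ≤ (n : ℝ) ^ (2 / 3 - 2 * κ) :=
    Real.rpow_le_rpow_of_exponent_le hn1' (by linarith)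
  have e3 : (n : ℝ) ^ (2 / 3 - κ) = (n : ℝ) ^ κ * (n : ℝ) ^ (2 / 3 - 2 * κ) := by
    rw [← Real.rpow_add hn0]
    congr 1
    ring
  have e4 : 0 < (n : ℝ) ^ (2 / 3 - 2 * κ) := by positivity
  rw [e3]
  nlinarith

/-- The triples with `c ≥ rad ^ (1/3 + ε)`. -/
theorem exceptional (hF : Pabc12.FibreKStmt 3) (ε : ℝ)
    (hε : 0 < ε) : ∃ κ : ℝ, 0 < κ ∧ ∀ᶠ n : ℕ in atTop, ∀ T : Finset (ℕ × ℕ),
      (∀ t ∈ T, IsT t ∧ rd t ≤ n ∧ (1 / 3 + ε) * Real.log (rd t) ≤ ht t) →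
      (T.card : ℝ) ≤ (n : ℝ) ^ (2 / 3 - κ) := by
  classical
  obtain ⟨κ, hκ, hκ3, h1⟩ := above_third hF (ε / 2) (by positivity)
  refine ⟨κ / 2, by positivity, ?_⟩
  have hα : 0 < 2 / 3 - κ := by linarith
  have hall : ∀ᶠ n : ℕ in atTop, ∀ T : Finset (ℕ × ℕ), (∀ t ∈ T, IsT t ∧ rd t ≤ n) →
      (T.card : ℝ) ≤ (n : ℝ) ^ (1 : ℝ) := by
    filter_upwards [Pabc9.main_all Pabc9.thmE (1 / 16) (by norm_num)] with n h T hT
    have h2 := h T hT
    have h3 : (0 : ℝ) ≤ T.card := Nat.cast_nonneg _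
    rw [show (1 : ℝ) - 1 / 16 + 1 / 16 = 1 by norm_num] at h2
    linarith
  have key := dyadic hα (β := 1) one_pos hall
    (fun _ t => (1 / 3 + ε) * Real.log (rd t) ≤ ht t)
    (fun m t => (1 / 3 + ε / 2) * Real.log m ≤ ht t) h1 (by
      have hlim : Tendsto (fun n : ℕ => Real.log (n : ℝ)) atTop atTop :=
        Real.tendsto_log_atTop.comp tendsto_natCast_atTop_atTop
      filter_upwards [hlim.eventually (eventually_ge_atTop ((1 / 3 + ε) * Real.log 2 / (ε / 2))),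
        eventually_ge_atTop 1] with m hm hm1 n _ _ t hI _ hm2 hP
      have hm0 : (0 : ℝ) < m := by exact_mod_cast hm1
      have hr0 : (0 : ℝ) < rd t := by exact_mod_cast rd_pos t
      have h2 : Real.log m ≤ Real.log 2 + Real.log (rd t) := by
        rw [← Real.log_mul (by norm_num) hr0.ne']
        apply Real.log_le_log hm0
        exact_mod_cast hm2
      rw [div_le_iff₀ (by positivity)] at hm
      have h3 : (1 / 3 + ε) * (Real.log m - Real.log 2) ≤ (1 / 3 + ε) * Real.log (rd t) :=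
        mul_le_mul_of_nonneg_left (by linarith) (by positivity)
      linarith) (κ / 2) (by positivity)
  filter_upwards [key] with n h T hT
  refine (h T hT).trans (le_of_eq ?_)
  congr 1
  ring

end Pool.Agent.Lib.AbcL
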