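import Mathlib
import Pool.Agent.Lib.AbcL.Cases
import Pool.Agent.Lib.Pabcv.FinalA
import Pool.Agent.Lib.Pabcv.FinalB

/-!
# From pairs `(a, b)`, `a ≤ b`, to abc-triples
-/

open Finset Filter Topology

namespace Pool.Agent.Lib.AbcL

open Pool.Agent.Lib.Pabc2 Pool.Agent.Lib.Pabc1 Pool.Agent.Lib.Pabcv

theorem isT_of {a b c : ℕ} (h : AbcTriple a b c) : IsT (min a b, max a b) := by
  obtain ⟨ha, hb, hc, hab, hac, hbc, habc⟩ := h
  refine ⟨by simp only; omega, by simp only; omega, ?_⟩
  simp only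
  rcases le_total a b with h | h
  · rw [min_eq_left h, max_eq_right h]; exact hab
  · rw [min_eq_right h, max_eq_left h]; exact hab.symm

theorem N_of {a b c : ℕ} (h : AbcTriple a b c) : N (min a b, max a b) = a * b * c := by
  obtain ⟨ha, hb, hc, hab, hac, hbc, habc⟩ := h
  unfold N
  simp only
  rcases le_total a b with h | h
  · rw [min_eq_left h, max_eq_right h, habc]
  · rw [min_eq_right h, max_eq_left h, ← habc]; ring

theorem rd_of {a b c : ℕ} (h : AbcTriple a b c) : rd (min a b, max a b) = rad (a * b * c) := by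
  unfold rd rad
  rw [N_of h]

theorem ht_of {a b c : ℕ} (h : AbcTriple a b c) : ht (min a b, max a b) = Real.log c := by
  obtain ⟨ha, hb, hc, hab, hac, hbc, habc⟩ := h
  unfold ht
  simp only
  congr 1
  rw [← habc]
  push_cast
  rcases le_total (a : ℝ) b with h | h
  · rw [min_eq_left h, max_eq_right h]
  · rw [min_eq_right h, max_eq_left h]; ring

/-- Transfer of an upper bound. -/
theorem transfer {V : Set (ℕ × ℕ × ℕ)} {Q : ℕ × ℕ → Prop} {B : ℝ}
    (hV : ∀ v ∈ V, AbcTriple v.1 v.2.1 v.2.2 ∧ Q (min v.1 v.2.1, max v.1 v.2.1))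
    (hB : ∀ T : Finset (ℕ × ℕ), (∀ t ∈ T, Q t) → (T.card : ℝ) ≤ B) :
    V.Finite ∧ (V.ncard : ℝ) ≤ 2 * B := by
  classical
  have hfin : {t | Q t}.Finite := by
    by_contra hinf
    obtain ⟨m, hm⟩ := exists_nat_gt B
    obtain ⟨T, hT, hTc⟩ := Set.Infinite.exists_subset_card_eq hinf m
    have h1 := hB T (fun t ht' => hT ht')
    rw [hTc] at h1
    linarith
  set S := hfin.toFinset with hS
  have hSc : (S.card : ℝ) ≤ B := hB S (fun t ht' => (Set.Finite.mem_toFinset hfin).mp ht')
  set T : Finset (ℕ × ℕ × ℕ) := S.image (fun t => (t.1, t.2, t.1 + t.2)) ∪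
    S.image (fun t => (t.2, t.1, t.1 + t.2)) with hT
  have hsub : V ⊆ (T : Set (ℕ × ℕ × ℕ)) := by
    rintro ⟨a, b, c⟩ hv
    obtain ⟨h1, h2⟩ := hV _ hv
    simp only at h1 h2
    have habc : a + b = c := h1.2.2.2.2.2.2
    rw [Finset.mem_coe, hT, Finset.mem_union, Finset.mem_image, Finset.mem_image]
    rcases le_total a b with h | h
    · left
      rw [min_eq_left h, max_eq_right h] at h2
      exact ⟨(a, b), (Set.Finite.mem_toFinset hfin).mpr h2, by simp [habc]⟩
    · right
      rw [min_eq_right h, max_eq_left h] at h2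
      refine ⟨(b, a), (Set.Finite.mem_toFinset hfin).mpr h2, ?_⟩
      simp only [Prod.mk.injEq, true_and]
      omega
  have hfinV : V.Finite := (Finset.finite_toSet T).subset hsub
  refine ⟨hfinV, ?_⟩
  have h1 : V.ncard ≤ T.card := by
    have := Set.ncard_le_ncard hsub (Finset.finite_toSet T)
    rwa [Set.ncard_coe_finset] at this
  have h2 : T.card ≤ S.card + S.card :=
    (Finset.card_union_le _ _).trans (Nat.add_le_add Finset.card_image_le Finset.card_image_le)
  have h3 : (V.ncard : ℝ) ≤ S.card + S.card := by exact_mod_cast h1.trans h2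
  linarith

/-- The dyadic reduction: a bound for the number of triples of radical at most `n` and height
between `M0 log n` and `M log n` gives a bound for the number of violators. -/
theorem violators_of_count (α : ℝ) (hα : 0 < α) (M0 : ℝ) (hM0 : 1 ≤ M0)
    (hcount : ∀ M : ℝ, ∀ᶠ n : ℕ in atTop, ∀ T : Finset (ℕ × ℕ),
      (∀ t ∈ T, IsT t ∧ rd t ≤ n ∧ M0 * Real.log n ≤ ht t ∧ ht t ≤ M * Real.log n) →
      (T.card : ℝ) ≤ (n : ℝ) ^ α)
    (M : ℝ) (hM : M0 + 1 ≤ M) (ε : ℝ) (hε : 0 < ε) : ∃ X0 : ℕ, ∀ X : ℕ, X0 ≤ X →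
    ({t : ℕ × ℕ × ℕ | AbcTriple t.1 t.2.1 t.2.2 ∧ t.2.2 ≤ X ∧
      (rad (t.1 * t.2.1 * t.2.2) : ℝ) ^ M ≤ t.2.2}.ncard : ℝ) ≤
      (X : ℝ) ^ (α / M + ε) := by
  classical
  have hMpos : 0 < M := by linarith
  obtain ⟨n0, hn0⟩ := Filter.eventually_atTop.mp ((hcount (M + 1)).and
    ((tendsto_natCast_atTop_atTop (R := ℝ)).eventually_ge_atTop
      (max 3 (Real.exp (M + 1)))))
  -- a real number `Y1` beyond which everything holds
  set Y1 : ℝ := (n0 : ℝ) + 3 with hY1
  have hY1pos : 0 < Y1 := by positivity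
  set S : Finset (ℕ × ℕ × ℕ) := (finite_abc_le (Y1 ^ M)).toFinset with hS
  obtain ⟨X0, hX0⟩ := eventually_log_bound (ε / 2) (by positivity) (S.card : ℝ)
  obtain ⟨X1, hX1⟩ := Filter.eventually_atTop.mp
    (((tendsto_rpow_atTop (show 0 < ε / 2 by positivity)).comp
      (tendsto_natCast_atTop_atTop (R := ℝ))).eventually_ge_atTop 2)
  refine ⟨max (max X0 1) X1, fun X hX => ?_⟩
  have hX1' : 1 ≤ X := le_trans (le_max_right _ _) ((le_max_left _ _).trans hX)
  have hX1r : (1 : ℝ) ≤ X := by exact_mod_cast hX1'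
  have hXX0 : X0 ≤ X := le_trans (le_max_left _ _) ((le_max_left _ _).trans hX)
  have hXX1 : (2 : ℝ) ≤ (X : ℝ) ^ (ε / 2) := hX1 X ((le_max_right _ _).trans hX)
  set Cj : ℕ → ℝ := fun j => (X : ℝ) / 2 ^ j with hCj
  set Yj : ℕ → ℝ := fun j => (Cj j) ^ (1 / M) with hYj
  have hCpos : ∀ j, 0 < Cj j := fun j => by simp only [hCj]; positivity
  have hYpos : ∀ j, 0 < Yj j := fun j => Real.rpow_pos_of_pos (hCpos j) _
  have hYM : ∀ j, (Yj j) ^ M = Cj j := fun j => by
    simp only [hYj]
    rw [← Real.rpow_mul (hCpos j).le, one_div_mul_cancel hMpos.ne', Real.rpow_one]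
  have hCX : ∀ j, Cj j ≤ X := fun j => by
    simp only [hCj]
    exact div_le_self (by linarith) (one_le_pow₀ (by norm_num))
  have hTfin : ∀ C Y : ℝ, {t : ℕ × ℕ × ℕ | AbcTriple t.1 t.2.1 t.2.2 ∧
      (rad (t.1 * t.2.1 * t.2.2) : ℝ) ≤ Y ∧
      C / 2 < t.2.2 ∧ (t.2.2 : ℝ) ≤ C}.Finite := fun C Y =>
    (finite_abc_le C).subset fun t ht => ⟨ht.1, ht.2.2.2⟩
  set T : ℕ → Finset (ℕ × ℕ × ℕ) := fun j =>
    if Y1 ≤ Yj j then (hTfin (Cj j) (Yj j)).toFinset else ∅ with hT
  have hTcard : ∀ j, ((T j).card : ℝ) ≤ 2 * (X : ℝ) ^ (α / M) := by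
    intro j
    simp only [hT]
    split_ifs with h
    · set Y := Yj j with hYY
      have hYp := hYpos j
      rw [← hYY] at hYp
      set n : ℕ := ⌊Y⌋₊ with hn
      have hnY : (n : ℝ) ≤ Y := Nat.floor_le hYp.le
      have hYn : Y < n + 1 := Nat.lt_floor_add_one Y
      have hnn0 : n0 ≤ n := by
        apply Nat.le_floor
        linarith
      obtain ⟨hc1, hc2⟩ := hn0 n hnn0
      have hn3 : (3 : ℝ) ≤ n := (le_max_left _ _).trans hc2
      have hnM : Real.exp (M + 1) ≤ n := (le_max_right _ _).trans hc2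
      have hnpos : (0 : ℝ) < n := by linarith
      have hlogn : M + 1 ≤ Real.log n := (Real.le_log_iff_exp_le hnpos).mpr hnM
      have hlogY : Real.log n ≤ Real.log Y := Real.log_le_log hnpos hnY
      have hlogY2 : Real.log Y ≤ Real.log n + 1 / n := by
        have h1 : Real.log Y ≤ Real.log (n + 1) := Real.log_le_log hYp hYn.le
        have h2 : Real.log ((n : ℝ) + 1) = Real.log n + Real.log (1 + 1 / n) := by
          rw [← Real.log_mul hnpos.ne' (by positivity)]
          congr 1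
          field_simp
        have h3 : Real.log (1 + 1 / (n : ℝ)) ≤ 1 / n := by
          have := Real.log_le_sub_one_of_pos (show (0 : ℝ) < 1 + 1 / n by positivity)
          linarith
        linarith
      have hC : Real.log (Cj j) = M * Real.log Y := by
        rw [← hYM j, Real.log_rpow hYp]
      obtain ⟨-, h2⟩ := transfer (V := {t : ℕ × ℕ × ℕ | AbcTriple t.1 t.2.1 t.2.2 ∧
        (rad (t.1 * t.2.1 * t.2.2) : ℝ) ≤ Y ∧ Cj j / 2 < t.2.2 ∧ (t.2.2 : ℝ) ≤ Cj j})
        (Q := fun t => IsT t ∧ rd t ≤ n ∧ M0 * Real.log n ≤ ht t ∧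
          ht t ≤ (M + 1) * Real.log n) (B := (n : ℝ) ^ α) (by
          rintro ⟨a, b, c⟩ ⟨habc, hr, hc3, hc4⟩
          simp only at habc hr hc3 hc4
          simp only
          refine ⟨habc, isT_of habc, ?_, ?_, ?_⟩
          · rw [rd_of habc]
            exact Nat.le_floor hr
          · rw [ht_of habc]
            have hcpos : (0 : ℝ) < c := by exact_mod_cast habc.2.2.1
            have h3 : Real.log (Cj j / 2) ≤ Real.log c :=
              Real.log_le_log (by have := hCpos j; positivity) hc3.le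
            rw [Real.log_div (hCpos j).ne' (by norm_num), hC] at h3
            have h4 : Real.log 2 ≤ 1 := by
              have := Real.log_two_lt_d9
              linarith
            have h5 : (M0 + 1) * Real.log n ≤ M * Real.log Y :=
              mul_le_mul hM hlogY (by linarith) hMpos.le
            linarith
          · rw [ht_of habc]
            have hcpos : (0 : ℝ) < c := by exact_mod_cast habc.2.2.1
            have h3 : Real.log c ≤ Real.log (Cj j) := Real.log_le_log hcpos hc4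
            rw [hC] at h3
            have h4 : M * Real.log Y ≤ M * (Real.log n + 1 / n) :=
              mul_le_mul_of_nonneg_left hlogY2 hMpos.le
            have h5 : M * (1 / (n : ℝ)) ≤ 1 := by
              have h6 : M ≤ n := by
                have h7 : M + 1 + 1 ≤ Real.exp (M + 1) := Real.add_one_le_exp _
                linarith
              rw [mul_one_div, div_le_one hnpos]
              exact h6
            nlinarith) hc1
      rw [Set.ncard_eq_toFinset_card _ (hTfin (Cj j) Y)] at h2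
      refine h2.trans ?_
      have h3 : (n : ℝ) ^ α ≤ Y ^ α := Real.rpow_le_rpow hnpos.le hnY hα.le
      have h4 : Y ^ α = (Cj j) ^ (α / M) := by
        rw [hYY]
        simp only [hYj]
        rw [← Real.rpow_mul (hCpos j).le]
        congr 1
        field_simp
      have h5 : (Cj j) ^ (α / M) ≤ (X : ℝ) ^ (α / M) :=
        Real.rpow_le_rpow (hCpos j).le (hCX j) (by positivity)
      linarith
    · simp only [Finset.card_empty, Nat.cast_zero]
      have := Real.rpow_nonneg (Nat.cast_nonneg (α := ℝ) X) (α / M)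
      linarith
  set V : Set (ℕ × ℕ × ℕ) := {t : ℕ × ℕ × ℕ | AbcTriple t.1 t.2.1 t.2.2 ∧ t.2.2 ≤ X ∧
      (rad (t.1 * t.2.1 * t.2.2) : ℝ) ^ M ≤ t.2.2} with hV
  have hsub : V ⊆ ((S ∪ (Finset.range (Nat.log 2 X + 1)).biUnion T : Finset (ℕ × ℕ × ℕ)) :
      Set (ℕ × ℕ × ℕ)) := by
    rintro ⟨a, b, c⟩ ⟨habc, hcX, hrad⟩
    simp only at habc hcX hrad
    have hc : 1 ≤ c := habc.2.2.1
    rw [Finset.mem_coe, Finset.mem_union]
    set j := Nat.log 2 (X / c) with hj
    have hXc : X / c ≠ 0 := by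
      have := Nat.div_pos hcX hc
      omega
    have hj1 : 2 ^ j * c ≤ X := by
      have := Nat.pow_log_le_self 2 hXc
      exact (Nat.le_div_iff_mul_le hc).mp this
    have hj2 : X < 2 ^ (j + 1) * c := by
      have := Nat.lt_pow_succ_log_self (b := 2) (by norm_num) (X / c)
      exact (Nat.div_lt_iff_lt_mul hc).mp this
    have hjle : j ≤ Nat.log 2 X := Nat.log_mono_right (Nat.div_le_self X c)
    have hcC : (c : ℝ) ≤ Cj j := by
      simp only [hCj]
      rw [le_div_iff₀ (by positivity)]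
      have : ((2 ^ j * c : ℕ) : ℝ) ≤ X := by exact_mod_cast hj1
      push_cast at this
      linarith
    have hcC2 : Cj j / 2 < c := by
      simp only [hCj]
      rw [div_div, div_lt_iff₀ (by positivity)]
      have : (X : ℝ) < ((2 ^ (j + 1) * c : ℕ) : ℝ) := by exact_mod_cast hj2
      push_cast at this
      rw [pow_succ] at this
      linarith
    by_cases hY : Y1 ≤ Yj j
    · right
      refine Finset.mem_biUnion.mpr ⟨j, Finset.mem_range.mpr (by omega), ?_⟩
      simp only [hT, if_pos hY]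
      rw [Set.Finite.mem_toFinset]
      refine ⟨habc, ?_, hcC2, hcC⟩
      have h1 : (rad (a * b * c) : ℝ) ^ M ≤ Cj j := hrad.trans hcC
      have h2 : ((rad (a * b * c) : ℝ) ^ M) ^ (1 / M) ≤ (Cj j) ^ (1 / M) :=
        Real.rpow_le_rpow (Real.rpow_nonneg (Nat.cast_nonneg _) _) h1 (by positivity)
      rwa [← Real.rpow_mul (Nat.cast_nonneg _), mul_one_div_cancel hMpos.ne', Real.rpow_one] at h2
    · left
      rw [hS, Set.Finite.mem_toFinset]
      refine ⟨habc, ?_⟩
      show (c : ℝ) ≤ Y1 ^ M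
      refine hcC.trans ?_
      rw [← hYM j]
      exact Real.rpow_le_rpow (hYpos j).le (not_le.mp hY).le hMpos.le
  set P : ℝ := (X : ℝ) ^ (α / M) with hP
  have hP1 : (1 : ℝ) ≤ P := Real.one_le_rpow hX1r (by positivity)
  have hcard : (V.ncard : ℝ) ≤ S.card + (Nat.log 2 X + 1) * (2 * P) := by
    have h1 : V.ncard ≤ (S ∪ (Finset.range (Nat.log 2 X + 1)).biUnion T).card := by
      have := Set.ncard_le_ncard hsub (Finset.finite_toSet _)
      rwa [Set.ncard_coe_finset] at this
    have h2 : (S ∪ (Finset.range (Nat.log 2 X + 1)).biUnion T).card ≤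
        S.card + ∑ j ∈ Finset.range (Nat.log 2 X + 1), (T j).card :=
      (Finset.card_union_le _ _).trans (Nat.add_le_add_left Finset.card_biUnion_le _)
    have h3 : (V.ncard : ℝ) ≤ S.card + ∑ j ∈ Finset.range (Nat.log 2 X + 1), ((T j).card : ℝ) := by
      exact_mod_cast h1.trans h2
    refine h3.trans ?_
    have h4 : ∑ j ∈ Finset.range (Nat.log 2 X + 1), ((T j).card : ℝ) ≤
        ∑ _j ∈ Finset.range (Nat.log 2 X + 1), 2 * P :=
      Finset.sum_le_sum fun j _ => hTcard j
    rw [Finset.sum_const, Finset.card_range, nsmul_eq_mul] at h4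
    push_cast at h4
    linarith
  refine hcard.trans ?_
  have h5 := hX0 X hXX0
  have hS0 : (0 : ℝ) ≤ S.card := Nat.cast_nonneg _
  have hQ0 : 0 ≤ (X : ℝ) ^ (ε / 2) := by positivity
  calc (S.card : ℝ) + (Nat.log 2 X + 1) * (2 * P)
      ≤ 2 * P * ((Nat.log 2 X : ℕ) + 1 + S.card) := by
        have : (S.card : ℝ) * 1 ≤ S.card * (2 * P) := mul_le_mul_of_nonneg_left (by linarith) hS0
        linarith
    _ ≤ 2 * P * (X : ℝ) ^ (ε / 2) := mul_le_mul_of_nonneg_left h5 (by linarith)
    _ ≤ (X : ℝ) ^ (ε / 2) * P * (X : ℝ) ^ (ε / 2) := by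
        apply mul_le_mul_of_nonneg_right _ hQ0
        exact mul_le_mul_of_nonneg_right hXX1 (by linarith)
    _ = (X : ℝ) ^ (α / M + ε) := by
        rw [hP, ← Real.rpow_add (by linarith), ← Real.rpow_add (by linarith)]
        congr 1
        ring

end Pool.Agent.Lib.AbcL
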