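import Mathlib
import Pool.Agent.Lib.AbcL.Transfer
import Pool.Agent.Lib.AbcL.Above
import Pool.Agent.Lib.Pabc1.SLower

/-!
# Almost all triples have `c < rad ^ (1/3 + ε)`
-/

open Finset Filter Topology

namespace Pool.Agent.Lib.AbcL

open Pool.Agent.Lib.Pabc2 Pool.Agent.Lib.Pabc1 Pool.Agent.Lib.Pabcv

/-- The abc triples with `rad (abc) ≤ Y`. -/
def allTriples (Y : ℕ) : Set (ℕ × ℕ × ℕ) :=
  {t | AbcTriple t.1 t.2.1 t.2.2 ∧ rad (t.1 * t.2.1 * t.2.2) ≤ Y}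

/-- The abc triples with `rad (abc) ≤ Y` and `rad (abc) ^ (1/3 + ε) ≤ c`. -/
def excTriples (ε : ℝ) (Y : ℕ) : Set (ℕ × ℕ × ℕ) :=
  {t | AbcTriple t.1 t.2.1 t.2.2 ∧ rad (t.1 * t.2.1 * t.2.2) ≤ Y ∧
    (rad (t.1 * t.2.1 * t.2.2) : ℝ) ^ (1 / 3 + ε) ≤ t.2.2}

theorem all_finite : ∀ᶠ Y : ℕ in atTop, (allTriples Y).Finite := by
  filter_upwards [Pabc9.main_all Pabc9.thmE (1 / 16) (by norm_num)] with Y h
  refine (transfer (V := allTriples Y) (Q := fun t => IsT t ∧ rd t ≤ Y)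
    (B := (Y : ℝ) ^ ((1 : ℝ) - 1 / 16 + 1 / 16)) ?_ ?_).1
  · rintro ⟨a, b, c⟩ ⟨habc, hr⟩
    simp only at habc hr
    simp only
    exact ⟨habc, isT_of habc, by rw [rd_of habc]; exact hr⟩
  · intro T hT
    have h2 := h T hT
    have h3 : (0 : ℝ) ≤ T.card := Nat.cast_nonneg _
    linarith

theorem all_lower (Y : ℕ) (hY : 13824 ≤ Y) (hfin : (allTriples Y).Finite) :
    1 / 4 * (Y : ℝ) ^ (2 / 3 : ℝ) ≤ (allTriples Y).ncard := by
  classical
  have hY0 : (0 : ℝ) < Y := by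
    have : 0 < Y := by omega
    exact_mod_cast this
  set y : ℝ := (Y : ℝ) ^ (1 / 3 : ℝ) with hy
  have hy0 : 0 < y := Real.rpow_pos_of_pos hY0 _
  have hy3 : y ^ 3 = Y := by
    rw [hy, ← Real.rpow_natCast, ← Real.rpow_mul hY0.le]
    norm_num
  have hy2 : y ^ 2 = (Y : ℝ) ^ (2 / 3 : ℝ) := by
    rw [hy, ← Real.rpow_natCast, ← Real.rpow_mul hY0.le]
    norm_num
  have hy24 : 24 ≤ y := by
    have h1 : (24 : ℝ) ^ 3 ≤ y ^ 3 := by
      rw [hy3]
      have : ((13824 : ℕ) : ℝ) ≤ Y := by exact_mod_cast hY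
      push_cast at this
      linarith
    exact le_of_pow_le_pow_left₀ (by norm_num) hy0.le h1
  set m : ℕ := ⌊3 / 4 * y⌋₊ with hm
  have hm1 : (m : ℝ) ≤ 3 / 4 * y := Nat.floor_le (by positivity)
  have hm2 : 3 / 4 * y < m + 1 := Nat.lt_floor_add_one _
  have hm0 : (0 : ℝ) ≤ m := Nat.cast_nonneg m
  have hm3 : 2 * (m : ℝ) ^ 3 ≤ Y := by
    rw [← hy3]
    have : (m : ℝ) ^ 3 ≤ (3 / 4 * y) ^ 3 := pow_le_pow_left₀ hm0 hm1 3
    have h3 : 0 < y ^ 3 := by positivity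
    nlinarith
  have hm3' : 2 * m ^ 3 ≤ Y := by exact_mod_cast hm3
  set f : ℕ × ℕ → ℕ × ℕ × ℕ := fun t => (t.1, t.2, t.1 + t.2) with hf
  have hinj : Function.Injective f := by
    rintro ⟨a, b⟩ ⟨a', b'⟩ h
    simp only [hf, Prod.mk.injEq] at h
    rw [h.1, h.2.1]
  have hsub : ((cop m).image f : Set (ℕ × ℕ × ℕ)) ⊆ allTriples Y := by
    rintro ⟨a, b, c⟩ h
    rw [Finset.mem_coe, Finset.mem_image] at h
    obtain ⟨⟨a', b'⟩, h1, h2⟩ := h
    simp only [hf, Prod.mk.injEq] at h2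
    obtain ⟨rfl, rfl, rfl⟩ := h2
    unfold cop at h1
    rw [Finset.mem_filter, Finset.mem_product, Finset.mem_Icc, Finset.mem_Icc] at h1
    obtain ⟨⟨⟨ha1, ha2⟩, ⟨hb1, hb2⟩⟩, hc⟩ := h1
    simp only at ha1 ha2 hb1 hb2 hc
    have hab : a' * b' * (a' + b') ≤ Y := by
      calc a' * b' * (a' + b') ≤ m * m * (m + m) := by gcongr
        _ = 2 * m ^ 3 := by ring
        _ ≤ Y := hm3'
    have hpos : 0 < a' * b' * (a' + b') := by positivity
    refine ⟨⟨ha1, hb1, by simp only; omega, hc, ?_, ?_, rfl⟩, ?_⟩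
    · simp only
      exact (Nat.coprime_self_add_right).mpr hc
    · simp only
      exact (Nat.coprime_add_self_right).mpr hc.symm
    · simp only
      refine le_trans (Nat.le_of_dvd hpos ?_) hab
      exact Nat.prod_primeFactors_dvd _
  have hcard : (cop m).card ≤ (allTriples Y).ncard := by
    have h1 := Set.ncard_le_ncard hsub hfin
    rw [Set.ncard_coe_finset, Finset.card_image_of_injective _ hinj] at h1
    exact h1
  have h2 := cop_card m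
  have h3 : ((cop m).card : ℝ) ≤ (allTriples Y).ncard := by exact_mod_cast hcard
  rw [← hy2]
  nlinarith

theorem final_A (hF : Pabc12.FibreKStmt 3) (ε : ℝ) (hε : 0 < ε) : ∃ κ : ℝ, 0 < κ ∧
    ∀ᶠ Y : ℕ in atTop,
      ((excTriples ε Y).Finite ∧ ((excTriples ε Y).ncard : ℝ) ≤ (Y : ℝ) ^ (2 / 3 - κ)) ∧
      (allTriples Y).Finite ∧ 1 / 4 * (Y : ℝ) ^ (2 / 3 : ℝ) ≤ (allTriples Y).ncard := by
  obtain ⟨κ, hκ, h1⟩ := exceptional hF ε hε
  have hlim2 : Tendsto (fun n : ℕ => (n : ℝ)) atTop atTop := tendsto_natCast_atTop_atTop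
  refine ⟨κ / 2, by positivity, ?_⟩
  filter_upwards [h1, all_finite, ((tendsto_rpow_atTop (show 0 < κ / 2 by positivity)).comp
      hlim2).eventually_ge_atTop 2, eventually_ge_atTop 13824] with Y h2 hfin h3 hY
  simp only [Function.comp] at h3
  have hY1 : 1 ≤ Y := by omega
  have hY0 : (0 : ℝ) < Y := by exact_mod_cast hY1
  refine ⟨?_, hfin, all_lower Y hY hfin⟩
  obtain ⟨ha, hb⟩ := transfer (V := excTriples ε Y)
    (Q := fun t => IsT t ∧ rd t ≤ Y ∧ (1 / 3 + ε) * Real.log (rd t) ≤ ht t)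
    (B := (Y : ℝ) ^ (2 / 3 - κ)) (by
      rintro ⟨a, b, c⟩ ⟨habc, hr, hc3⟩
      simp only at habc hr hc3
      simp only
      have hrpos : (0 : ℝ) < rad (a * b * c) := by exact_mod_cast rad_pos _
      refine ⟨habc, isT_of habc, ?_, ?_⟩
      · rw [rd_of habc]; exact hr
      · rw [ht_of habc, rd_of habc, ← Real.log_rpow hrpos]
        exact Real.log_le_log (by positivity) hc3) h2
  refine ⟨ha, hb.trans ?_⟩
  have h4 : (Y : ℝ) ^ (2 / 3 - κ / 2) = (Y : ℝ) ^ (κ / 2) * (Y : ℝ) ^ (2 / 3 - κ) := by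
    rw [← Real.rpow_add hY0]
    congr 1
    ring
  rw [h4]
  exact mul_le_mul_of_nonneg_right h3 (by positivity)

end Pool.Agent.Lib.AbcL
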