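import Mathlib
import Pool.Agent.Lib.AbcL.Large
import Pool.Agent.Lib.AbcL.Transfer
import Pool.Agent.Lib.AbcL.Above

/-!
# The count of the violators for large exponents
-/

open Finset Filter Topology

namespace Pool.Agent.Lib.AbcL

open Pool.Agent.Lib.Pabc2 Pool.Agent.Lib.Pabc1 Pool.Agent.Lib.Pabcv

/-- The number of all triples of radical at most `n` is at most `n`. -/
theorem all_le : ∀ᶠ n : ℕ in atTop, ∀ T : Finset (ℕ × ℕ), (∀ t ∈ T, IsT t ∧ rd t ≤ n) →
    (T.card : ℝ) ≤ (n : ℝ) ^ (1 : ℝ) := by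
  filter_upwards [Pabc9.main_all Pabc9.thmE (1 / 16) (by norm_num)] with n h T hT
  have h2 := h T hT
  have h3 : (0 : ℝ) ≤ T.card := Nat.cast_nonneg _
  rw [show (1 : ℝ) - 1 / 16 + 1 / 16 = 1 by norm_num] at h2
  linarith

/-- The triples with `c ≥ rad ^ M0` and `c ≤ n ^ A`. -/
theorem large_rad (HK : Pabc12.RootKStmt 1) (HI : RootInfStmt 1) (ε : ℝ) (hε : 0 < ε) :
    ∃ M0 : ℝ, 1 ≤ M0 ∧ ∀ A : ℝ, ∀ᶠ n : ℕ in atTop, ∀ T : Finset (ℕ × ℕ),
      (∀ t ∈ T, IsT t ∧ rd t ≤ n ∧ M0 * Real.log (rd t) ≤ ht t ∧ ht t ≤ A * Real.log n) →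
      (T.card : ℝ) ≤ (n : ℝ) ^ (1 / 3 + ε) := by
  obtain ⟨M0, hM0, h1⟩ := large_count HK HI (ε / 2) (by positivity)
  refine ⟨M0 + 1, by linarith, fun A => ?_⟩
  set α : ℝ := 1 / 3 + ε / 2 with hα
  have hα0 : 0 < α := by positivity
  have key := dyadic hα0 (β := 1) one_pos all_le
    (fun n t => (M0 + 1) * Real.log (rd t) ≤ ht t ∧ ht t ≤ A * Real.log n)
    (fun m t => M0 * Real.log m ≤ ht t ∧ ht t ≤ |A| / α * Real.log m)
    (by
      filter_upwards [h1 (|A| / α)] with n h T hT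
      exact h T (fun t ht' => ⟨(hT t ht').1, (hT t ht').2.1, (hT t ht').2.2.1,
        (hT t ht').2.2.2⟩)) (by
      have hlim : Tendsto (fun n : ℕ => Real.log (n : ℝ)) atTop atTop :=
        Real.tendsto_log_atTop.comp tendsto_natCast_atTop_atTop
      filter_upwards [hlim.eventually (eventually_ge_atTop ((M0 + 1) * Real.log 2)),
        eventually_ge_atTop 1] with m hm hm1 n hmn hnm t hI hrm hm2 hP
      obtain ⟨hP1, hP2⟩ := hP
      have hm0 : (0 : ℝ) < m := by exact_mod_cast hm1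
      have hr0 : (0 : ℝ) < rd t := by exact_mod_cast rd_pos t
      have hn1 : 1 ≤ n := by omega
      have hn0 : (0 : ℝ) < n := by exact_mod_cast hn1
      have h2 : Real.log m ≤ Real.log 2 + Real.log (rd t) := by
        rw [← Real.log_mul (by norm_num) hr0.ne']
        apply Real.log_le_log hm0
        exact_mod_cast hm2
      refine ⟨?_, ?_⟩
      · have h3 : (M0 + 1) * (Real.log m - Real.log 2) ≤ (M0 + 1) * Real.log (rd t) :=
          mul_le_mul_of_nonneg_left (by linarith) (by linarith)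
        linarith
      · rw [div_one] at hnm
        have h3 : α * Real.log n ≤ Real.log m := by
          rw [← Real.log_rpow hn0]
          exact Real.log_le_log (by positivity) hnm
        have hln : 0 ≤ Real.log (n : ℝ) := Real.log_nonneg (by exact_mod_cast hn1)
        calc ht t ≤ A * Real.log n := hP2
          _ ≤ |A| * Real.log n := mul_le_mul_of_nonneg_right (le_abs_self A) hln
          _ = |A| / α * (α * Real.log n) := by field_simp
          _ ≤ |A| / α * Real.log m := mul_le_mul_of_nonneg_left h3 (by positivity))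
    (ε / 2) (by positivity)
  filter_upwards [key] with n h T hT
  refine (h T (fun t ht' => ⟨(hT t ht').1, (hT t ht').2.1, (hT t ht').2.2⟩)).trans
    (le_of_eq ?_)
  congr 1
  rw [hα]
  ring

/-- The abc triples with `rad (abc) ≤ Y`, `rad (abc) ^ M ≤ c ≤ Y ^ A`. -/
def largeTriples (M A : ℝ) (Y : ℕ) : Set (ℕ × ℕ × ℕ) :=
  {t | AbcTriple t.1 t.2.1 t.2.2 ∧ rad (t.1 * t.2.1 * t.2.2) ≤ Y ∧
    (rad (t.1 * t.2.1 * t.2.2) : ℝ) ^ M ≤ t.2.2 ∧ (t.2.2 : ℝ) ≤ (Y : ℝ) ^ A}

/-- The abc triples with `c ≤ X`, `rad (abc) ^ M ≤ c`. -/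
def viol (M : ℝ) (X : ℕ) : Set (ℕ × ℕ × ℕ) :=
  {t | AbcTriple t.1 t.2.1 t.2.2 ∧ t.2.2 ≤ X ∧ (rad (t.1 * t.2.1 * t.2.2) : ℝ) ^ M ≤ t.2.2}

theorem final_B (HK : Pabc12.RootKStmt 1) (HI : RootInfStmt 1) (ε : ℝ) (hε : 0 < ε) :
    ∃ M0 : ℝ, 1 ≤ M0 ∧
      (∀ A : ℝ, ∀ᶠ Y : ℕ in atTop, (largeTriples M0 A Y).Finite ∧
        ((largeTriples M0 A Y).ncard : ℝ) ≤ (Y : ℝ) ^ (1 / 3 + ε)) ∧
      ∀ M : ℝ, M0 ≤ M → ∀ᶠ X : ℕ in atTop, (viol M X).Finite ∧
        ((viol M X).ncard : ℝ) ≤ (X : ℝ) ^ ((1 / 3 + ε) / M) := by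
  obtain ⟨M0, hM0, h1⟩ := large_rad HK HI (ε / 2) (by positivity)
  have hlim2 : Tendsto (fun n : ℕ => (n : ℝ)) atTop atTop := tendsto_natCast_atTop_atTop
  refine ⟨M0, hM0, fun A => ?_, fun M hM => ?_⟩
  · filter_upwards [h1 A, ((tendsto_rpow_atTop (show 0 < ε / 2 by positivity)).comp
      hlim2).eventually_ge_atTop 2, eventually_ge_atTop 1] with Y h2 h3 hY1
    simp only [Function.comp] at h3
    have hY0 : (0 : ℝ) < Y := by exact_mod_cast hY1
    obtain ⟨ha, hb⟩ := transfer (V := largeTriples M0 A Y)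
      (Q := fun t => IsT t ∧ rd t ≤ Y ∧ M0 * Real.log (rd t) ≤ ht t ∧
        ht t ≤ A * Real.log Y) (B := (Y : ℝ) ^ (1 / 3 + ε / 2)) (by
        rintro ⟨a, b, c⟩ ⟨habc, hr, hc3, hc4⟩
        simp only at habc hr hc3 hc4
        simp only
        have hcpos : (0 : ℝ) < c := by exact_mod_cast habc.2.2.1
        have hrpos : (0 : ℝ) < rad (a * b * c) := by exact_mod_cast rad_pos _
        refine ⟨habc, isT_of habc, ?_, ?_, ?_⟩
        · rw [rd_of habc]; exact hr
        · rw [ht_of habc, rd_of habc, ← Real.log_rpow hrpos]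
          exact Real.log_le_log (by positivity) hc3
        · rw [ht_of habc, ← Real.log_rpow hY0]
          exact Real.log_le_log hcpos hc4) h2
    refine ⟨ha, hb.trans ?_⟩
    have h4 : (Y : ℝ) ^ (1 / 3 + ε) = (Y : ℝ) ^ (ε / 2) * (Y : ℝ) ^ (1 / 3 + ε / 2) := by
      rw [← Real.rpow_add hY0]
      congr 1
      ring
    rw [h4]
    exact mul_le_mul_of_nonneg_right h3 (by positivity)
  · have hMpos : 0 < M := by linarith
    -- the bound for the radical
    have hfl : Tendsto (fun X : ℕ => ⌊(X : ℝ) ^ (1 / M)⌋₊) atTop atTop :=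
      tendsto_nat_floor_atTop.comp ((tendsto_rpow_atTop (by positivity)).comp hlim2)
    filter_upwards [hfl.eventually (h1 (M + 1)),
      hfl.eventually (hlim2.eventually (eventually_ge_atTop (max 3 (Real.exp (M + 1))))),
      ((tendsto_rpow_atTop (show 0 < ε / 2 / M by positivity)).comp
      hlim2).eventually_ge_atTop 2, eventually_ge_atTop 1] with X h2 hc2 h3 hX1
    simp only [Function.comp] at h3
    have hX0 : (0 : ℝ) < X := by exact_mod_cast hX1
    set Y : ℝ := (X : ℝ) ^ (1 / M) with hYY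
    have hYp : 0 < Y := by positivity
    set n : ℕ := ⌊Y⌋₊ with hn
    have hnY : (n : ℝ) ≤ Y := Nat.floor_le hYp.le
    have hYn : Y < n + 1 := Nat.lt_floor_add_one Y
    have hn3 : (3 : ℝ) ≤ n := (le_max_left _ _).trans hc2
    have hnM : Real.exp (M + 1) ≤ n := (le_max_right _ _).trans hc2
    have hnpos : (0 : ℝ) < n := by linarith
    have hlogn : M + 1 ≤ Real.log n := (Real.le_log_iff_exp_le hnpos).mpr hnM
    have hlogY2 : Real.log Y ≤ Real.log n + 1 / n := by
      have g1 : Real.log Y ≤ Real.log (n + 1) := Real.log_le_log hYp hYn.le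
      have g2 : Real.log ((n : ℝ) + 1) = Real.log n + Real.log (1 + 1 / n) := by
        rw [← Real.log_mul hnpos.ne' (by positivity)]
        congr 1
        field_simp
      have g3 : Real.log (1 + 1 / (n : ℝ)) ≤ 1 / n := by
        have := Real.log_le_sub_one_of_pos (show (0 : ℝ) < 1 + 1 / n by positivity)
        linarith
      linarith
    have hYX : Y ^ M = X := by
      rw [hYY, ← Real.rpow_mul hX0.le, one_div_mul_cancel hMpos.ne', Real.rpow_one]
    have hlogX : Real.log X = M * Real.log Y := by rw [← hYX, Real.log_rpow hYp]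
    obtain ⟨ha, hb⟩ := transfer (V := viol M X)
      (Q := fun t => IsT t ∧ rd t ≤ n ∧ M0 * Real.log (rd t) ≤ ht t ∧
        ht t ≤ (M + 1) * Real.log n) (B := (n : ℝ) ^ (1 / 3 + ε / 2)) (by
        rintro ⟨a, b, c⟩ ⟨habc, hcX, hr⟩
        simp only at habc hcX hr
        simp only
        have hcpos : (0 : ℝ) < c := by exact_mod_cast habc.2.2.1
        have hcX' : (c : ℝ) ≤ X := by exact_mod_cast hcX
        have hr1 : (1 : ℝ) ≤ rad (a * b * c) := by exact_mod_cast rad_pos _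
        have hrpos : (0 : ℝ) < rad (a * b * c) := by linarith
        refine ⟨habc, isT_of habc, ?_, ?_, ?_⟩
        · rw [rd_of habc]
          apply Nat.le_floor
          have g1 : (rad (a * b * c) : ℝ) ^ M ≤ X := hr.trans hcX'
          have g2 : ((rad (a * b * c) : ℝ) ^ M) ^ (1 / M) ≤ (X : ℝ) ^ (1 / M) :=
            Real.rpow_le_rpow (by positivity) g1 (by positivity)
          rwa [← Real.rpow_mul hrpos.le, mul_one_div_cancel hMpos.ne', Real.rpow_one] at g2
        · rw [ht_of habc, rd_of habc]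
          have g1 : Real.log ((rad (a * b * c) : ℝ) ^ M) ≤ Real.log c :=
            Real.log_le_log (by positivity) hr
          rw [Real.log_rpow hrpos] at g1
          have g2 : M0 * Real.log (rad (a * b * c)) ≤ M * Real.log (rad (a * b * c)) :=
            mul_le_mul_of_nonneg_right hM (Real.log_nonneg hr1)
          linarith
        · rw [ht_of habc]
          have g3 : Real.log c ≤ Real.log X := Real.log_le_log hcpos hcX'
          rw [hlogX] at g3
          have g4 : M * Real.log Y ≤ M * (Real.log n + 1 / n) :=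
            mul_le_mul_of_nonneg_left hlogY2 hMpos.le
          have g5 : M * (1 / (n : ℝ)) ≤ 1 := by
            have g6 : M ≤ n := by
              have g7 : M + 1 + 1 ≤ Real.exp (M + 1) := Real.add_one_le_exp _
              linarith
            rw [mul_one_div, div_le_one hnpos]
            exact g6
          nlinarith) h2
    refine ⟨ha, hb.trans ?_⟩
    have g1 : (n : ℝ) ^ (1 / 3 + ε / 2) ≤ Y ^ (1 / 3 + ε / 2) :=
      Real.rpow_le_rpow hnpos.le hnY (by positivity)
    have g2 : Y ^ (1 / 3 + ε / 2) = (X : ℝ) ^ ((1 / 3 + ε / 2) / M) := by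
      rw [hYY, ← Real.rpow_mul hX0.le]
      congr 1
      ring
    have g3 : (X : ℝ) ^ ((1 / 3 + ε) / M) =
        (X : ℝ) ^ (ε / 2 / M) * (X : ℝ) ^ ((1 / 3 + ε / 2) / M) := by
      rw [← Real.rpow_add hX0]
      congr 1
      ring
    rw [g3]
    have g4 : 0 < (X : ℝ) ^ ((1 / 3 + ε / 2) / M) := by positivity
    rw [g2] at g1
    calc 2 * (n : ℝ) ^ (1 / 3 + ε / 2) ≤ 2 * (X : ℝ) ^ ((1 / 3 + ε / 2) / M) := by linarith
      _ ≤ _ := mul_le_mul_of_nonneg_right h3 g4.le

end Pool.Agent.Lib.AbcL
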