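import Mathlib
import Pool.Agent.Lib.AbcL.FinalA
import Pool.Agent.Lib.AbcL.FinalB
import Pool.Agent.Lib.Pabc10.FibreK
import Pool.Agent.Lib.Pabc13.CountInf

/-!
# The hypotheses of the final theorems are discharged
-/

open Finset Filter Topology

namespace Pool.Agent.Lib.AbcL

open Pool.Agent.Lib.Pabc2 Pool.Agent.Lib.Pabc1

theorem fibreK (A : ℝ) (hA : 0 ≤ A) : Pabc12.FibreKStmt A :=
  fun d η k hd hd1 hη => Pabc10.fibre_rootK d A η k hd hd1 hA hη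

theorem rootK (A : ℝ) (hA : 0 ≤ A) : Pabc12.RootKStmt A :=
  fun d σ η k hd hd1 _ hη => Pabc10.count_rootK d A σ η k hd hd1 hA hη

theorem rootInf (A : ℝ) (hA : 0 ≤ A) : RootInfStmt A := by
  classical
  intro η k hη
  obtain ⟨c, K, hc, hK, hev⟩ := Pabc13.count_rootInf (1 / 2) 0 η A k (by norm_num) hη hA
  refine ⟨c, hc, K, ?_⟩
  filter_upwards [hev] with n hn T hT
  have h1 := hn T (by
    intro t ht'
    obtain ⟨hI, hrd, h1, h2, h3, H, hH, hHk, hHc⟩ := hT t ht'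
    refine ⟨hI, hrd, h1, h2, by linarith, ∅, H, Finset.empty_subset _,
      Finset.card_image_le.trans hHk, by simp, ?_⟩
    rw [Finset.empty_union]
    exact hHc)
  rwa [zero_add] at h1

/-- The triples with `c ≥ n ^ (1/3 + e)`. -/
theorem almost_all (e : ℝ) (he : 0 < e) : ∃ κ : ℝ, 0 < κ ∧ ∀ᶠ n : ℕ in atTop,
    ∀ T : Finset (ℕ × ℕ), (∀ t ∈ T, IsT t ∧ rd t ≤ n ∧ (1 / 3 + e) * Real.log n ≤ ht t) →
      (T.card : ℝ) ≤ (n : ℝ) ^ (2 / 3 - κ) := by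
  obtain ⟨κ, h1, -, h2⟩ := above_third (fibreK 3 (by norm_num)) e he
  exact ⟨κ, h1, h2⟩

theorem ready_A (ε : ℝ) (hε : 0 < ε) : ∃ κ : ℝ, 0 < κ ∧
    ∀ᶠ Y : ℕ in atTop,
      ((excTriples ε Y).Finite ∧ ((excTriples ε Y).ncard : ℝ) ≤ (Y : ℝ) ^ (2 / 3 - κ)) ∧
      (allTriples Y).Finite ∧ 1 / 4 * (Y : ℝ) ^ (2 / 3 : ℝ) ≤ (allTriples Y).ncard :=
  final_A (fibreK 3 (by norm_num)) ε hε

theorem ready_B (ε : ℝ) (hε : 0 < ε) :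
    ∃ M0 : ℝ, 1 ≤ M0 ∧
      (∀ A : ℝ, ∀ᶠ Y : ℕ in atTop, (largeTriples M0 A Y).Finite ∧
        ((largeTriples M0 A Y).ncard : ℝ) ≤ (Y : ℝ) ^ (1 / 3 + ε)) ∧
      ∀ M : ℝ, M0 ≤ M → ∀ᶠ X : ℕ in atTop, (viol M X).Finite ∧
        ((viol M X).ncard : ℝ) ≤ (X : ℝ) ^ ((1 / 3 + ε) / M) :=
  final_B (rootK 1 (by norm_num)) (rootInf 1 (by norm_num)) ε hε

end Pool.Agent.Lib.AbcL
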