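import Mathlib
import Pool.Agent.Lib.AbcL.Large

/-!
# The case analysis and the count without an upper bound for the height

The count of the triples with a modulus in the member of largest radical enters as `T3Stmt`.
-/

open Finset Filter Topology

namespace Pool.Agent.Lib.AbcL

open Pool.Agent.Lib.Pabc2 Pool.Agent.Lib.Pabc1 Pool.Agent.Lib.Pabc8

/-- A set `Q` of primes of one member of mass at least `d` and product at most `n ^ ρ`; the
radicals of the two other members have product at most `n ^ (2 v)`. -/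
def HasM (n : ℕ) (d ρ v : ℝ) (t : ℕ × ℕ) : Prop :=
  ∃ l : Fin 3, ∃ Q ⊆ (N t).primeFactors, (∀ p ∈ Q, lab t p = l) ∧
    ((∏ p ∈ Q, p : ℕ) : ℝ) ≤ (n : ℝ) ^ ρ ∧ d ≤ ∑ p ∈ Q, u t p ∧
    tw t - wt t l ≤ 2 * v * Real.log n

/-- The count of the triples with a cheap modulus in one member. -/
def T3Stmt (A : ℝ) : Prop := ∀ (d ρ v η : ℝ), 0 < d → d ≤ 1 → 0 < ρ → 0 < v → 0 < η →
  ∃ K : ℝ, ∀ᶠ n : ℕ in atTop, ∀ T : Finset (ℕ × ℕ),
    (∀ t ∈ T, IsT t ∧ rd t ≤ n ∧ K * Real.log n ≤ ht t ∧ ht t ≤ (n : ℝ) ^ A ∧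
      HasM n d ρ v t) → (T.card : ℝ) ≤ (n : ℝ) ^ (ρ + v + η)

/-- The case analysis; the height is free. -/
theorem casesM {t : ℕ × ℕ} (hI : IsT t) (hbig : 200 ≤ ht t) {n : ℕ} (hn : 2 ≤ n)
    (hrd : rd t ≤ n) {s e e' : ℝ} (hs : 0 < s) (hs1 : s ≤ 1) (he : 0 < e) (he1 : e ≤ 1 / 4)
    (he'1 : e' ≤ 1 / 4) {k : ℕ} (hk : 1 / s ≤ k) (hk2 : (k : ℝ) ≤ 2 / s)
    (hj : ∀ l : Fin 3, ∑ p ∈ sml t (s * Real.log n) l, u t p ≤ e' ∨
      e < ∑ p ∈ sml t (s * Real.log n) l, u t p) :
    HasM n (s * e / 4) (2 * s) (1 / 3) t ∨ HasK n (s * e / 4) (1 / 3 + 2 * s) (2 * e') k t ∨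
      HasInf (2 * e') k t := by
  classical
  set x := Real.log (n : ℝ) with hx
  have hx0 : 0 < x := Real.log_pos (by exact_mod_cast hn)
  have htw : tw t ≤ x := tw_le hrd
  have hn1 : 1 ≤ n := by omega
  have hH := ht_pos hI
  set d := s * e / 4 with hd
  have hd0 : 0 < d := by positivity
  have hbc : ((big t (s * x)).card : ℝ) ≤ k := by
    have h1 := big_card_le (z := s * x) htw
    refine le_trans ?_ hk
    rw [le_div_iff₀ hs]
    have h2 : ((big t (s * x)).card : ℝ) * s * x ≤ 1 * x := by linarith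
    exact le_of_mul_le_mul_right h2 hx0
  have hHcard : ∀ S : Finset ℕ, (big t (s * x) \ S).card ≤ k := by
    intro S
    have h1 : ((big t (s * x) \ S).card : ℝ) ≤ k :=
      le_trans (by exact_mod_cast Finset.card_le_card Finset.sdiff_subset) hbc
    exact_mod_cast h1
  have hHsub : ∀ S : Finset ℕ, big t (s * x) \ S ⊆ (N t).primeFactors \ S := fun S =>
    Finset.sdiff_subset_sdiff (Finset.filter_subset _ _) (Finset.Subset.refl _)
  have hwtle : ∀ i, wt t i ≤ tw t := fun i => by
    unfold wt tw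
    exact Finset.sum_le_sum_of_subset_of_nonneg (Finset.filter_subset _ _)
      (fun p _ _ => Real.log_natCast_nonneg p)
  -- the label of maximal weight
  obtain ⟨m, -, hmax⟩ := Finset.exists_max_image (Finset.univ : Finset (Fin 3)) (wt t)
    Finset.univ_nonempty
  have hmax' : ∀ i, wt t i ≤ wt t m := fun i => hmax i (Finset.mem_univ i)
  obtain ⟨i, j, hij, him, hjm⟩ : ∃ i j : Fin 3, i ≠ j ∧ i ≠ m ∧ j ≠ m := by
    have hm3 : m = 0 ∨ m = 1 ∨ m = 2 := by omega
    rcases hm3 with rfl | rfl | rfl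
    · exact ⟨1, 2, by decide, by decide, by decide⟩
    · exact ⟨0, 2, by decide, by decide, by decide⟩
    · exact ⟨0, 1, by decide, by decide, by decide⟩
  have hsum := wt_sum t hij him hjm
  by_cases hm : e < ∑ p ∈ sml t (s * x) m, u t p
  · -- a modulus in the member of maximal weight
    left
    obtain ⟨Q, hQ, hQl, hQw, hQm⟩ := cheap_small hI hx0 hs hs1 htw hm
    refine ⟨m, Q, hQ, hQl, prod_le_rpow hQ hn1 hQw, ?_, ?_⟩
    · have : 0 < s * e := by positivity
      rw [hd] at *
      linarith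
    · have h1 := hmax' i
      have h2 := hmax' j
      have h3 := wt_nonneg t i
      rw [← hx]
      linarith
  have hm' : ∑ p ∈ sml t (s * x) m, u t p ≤ e' := by
    rcases hj m with h | h
    · exact h
    · exact absurd h hm
  -- a lemma for two spread labels
  have two : ∀ i j : Fin 3, i ≠ j → i ≠ m → j ≠ m → wt t i ≤ wt t j →
      e < ∑ p ∈ sml t (s * x) j, u t p → HasK n d (1 / 3 + 2 * s) (2 * e') k t := by
    intro i j hij him hjm hwij hj'
    obtain ⟨Q, hQ, hQl, hQw, hQm⟩ := cheap_small hI hx0 hs hs1 htw hj'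
    have hsum := wt_sum t hij him hjm
    have hwi3 : wt t i ≤ 1 / 3 * x := by
      have h1 := hmax' j
      linarith
    set Pi := (N t).primeFactors.filter (fun p => lab t p = i) with hPi
    have hS : Pi ∪ Q ⊆ (N t).primeFactors := Finset.union_subset (Finset.filter_subset _ _) hQ
    refine ⟨Pi ∪ Q, hS, j, prod_le_rpow hS hn1 ?_, ?_, big t (s * x) \ (Pi ∪ Q), hHsub _,
      hHcard _, ?_⟩
    · have h1 : ∑ p ∈ Pi ∪ Q, Real.log (p : ℝ) ≤
          ∑ p ∈ Pi, Real.log (p : ℝ) + ∑ p ∈ Q, Real.log (p : ℝ) := by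
        have h2 := Finset.sum_union_inter (s₁ := Pi) (s₂ := Q) (f := fun p : ℕ => Real.log (p : ℝ))
        have h3 : 0 ≤ ∑ p ∈ Pi ∩ Q, Real.log (p : ℝ) :=
          Finset.sum_nonneg (fun p _ => Real.log_natCast_nonneg p)
        linarith
      have h2 : ∑ p ∈ Pi, Real.log (p : ℝ) = wt t i := rfl
      linarith
    · have h1 : Q ⊆ (Pi ∪ Q).filter (fun p => lab t p = j) := by
        intro p hp
        rw [Finset.mem_filter]
        exact ⟨Finset.mem_union_right _ hp, hQl p hp⟩
      have h2 := Finset.sum_le_sum_of_subset_of_nonneg h1 (f := u t) (fun p _ _ => u_nonneg hI p)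
      have h3 : 0 < s * e := by positivity
      linarith
    · refine (rest_le hI (z := s * x) (Pi ∪ Q) him (l := j) hij hjm.symm).trans ?_
      have h1 : sml t (s * x) i \ (Pi ∪ Q) = ∅ := by
        rw [Finset.sdiff_eq_empty_iff_subset]
        intro p hp
        have hp' := Finset.mem_filter.mp hp
        exact Finset.mem_union_left _ (Finset.mem_filter.mpr ⟨hp'.1, hp'.2.1⟩)
      rw [h1, Finset.sum_empty, zero_add]
      have h2 := sdiff_sum_le hI (sml t (s * x) m) (Pi ∪ Q)
      have h3 : 0 ≤ ∑ p ∈ sml t (s * x) m, u t p := Finset.sum_nonneg (fun p _ => u_nonneg hI p)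
      linarith
  -- a lemma for one spread label
  have one : ∀ i j : Fin 3, i ≠ j → i ≠ m → j ≠ m →
      e < ∑ p ∈ sml t (s * x) i, u t p → ∑ p ∈ sml t (s * x) j, u t p ≤ e' →
      HasK n d (1 / 3 + 2 * s) (2 * e') k t := by
    intro i j hij him hjm hi' hj'
    obtain ⟨Q, hQ, hQl, hQw, hQm⟩ := cheap_small hI hx0 hs hs1 htw hi'
    refine ⟨Q, hQ, i, prod_le_rpow hQ hn1 (by nlinarith), ?_, big t (s * x) \ Q, hHsub _,
      hHcard _, ?_⟩
    · rw [Finset.filter_true_of_mem hQl]
      have h3 : 0 < s * e := by positivity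
      linarith
    · refine (rest_le hI (z := s * x) Q hjm hij.symm him.symm).trans ?_
      have h2 := sdiff_sum_le hI (sml t (s * x) m) Q
      have h3 := sdiff_sum_le hI (sml t (s * x) j) Q
      linarith
  rcases hj i with hi0 | hi1
  · rcases hj j with hj0 | hj1
    · -- no spread label
      have hall : ∀ l : Fin 3, ∑ p ∈ sml t (s * x) l, u t p ≤ e' := by
        intro l
        have : l = i ∨ l = j ∨ l = m := by omega
        rcases this with rfl | rfl | rfl
        · exact hi0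
        · exact hj0
        · exact hm'
      by_cases hal : Real.log t.1 ≤ ht t / 2
      · right; right
        refine ⟨hal, big t (s * x), Finset.filter_subset _ _, by exact_mod_cast hbc, ?_⟩
        have h1 := rest_le hI (z := s * x) ∅ (i := 1) (j := 2) (l := 0) (by decide) (by decide)
          (by decide)
        rw [Finset.sdiff_empty, Finset.empty_union, Finset.sdiff_empty, Finset.sdiff_empty] at h1
        have h2 := hall 1
        have h3 := hall 2
        linarith
      · push Not at hal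
        right; left
        have hms : ∀ l : Fin 3, 1 / 2 ≤ ms t l := by
          intro l
          by_cases hl : (0 : Fin 3) = l
          · subst hl
            unfold ms
            rw [sum_lab_eq hI 0, le_div_iff₀ hH]
            have : comp t 0 = t.1 := by simp [comp]
            rw [this]
            linarith
          · have := ms_ge hI hbig hl
            linarith
        have hkpos : (0 : ℝ) < k := lt_of_lt_of_le (by positivity) hk
        have hq : ∀ l : Fin 3, ∃ q ∈ (N t).primeFactors, lab t q = l ∧ d ≤ u t q := by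
          intro l
          obtain ⟨q, hq1, hq2, hq3⟩ := massive (t := t) hbc (hms l) (hall l) (by linarith)
          refine ⟨q, hq1, hq2, ?_⟩
          have h1 : 1 / 4 ≤ (k : ℝ) * u t q := by linarith
          have h2 : (k : ℝ) * u t q ≤ 2 / s * u t q :=
            mul_le_mul_of_nonneg_right hk2 (u_nonneg hI q)
          have h3 : 1 / 4 * s ≤ 2 * u t q := by
            have h4 : 1 / 4 ≤ 2 / s * u t q := by linarith
            have h5 := mul_le_mul_of_nonneg_right h4 hs.le
            have h6 : 2 / s * u t q * s = 2 * u t q := by field_simp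
            linarith
          have h7 : s * e ≤ s * (1 / 4) := mul_le_mul_of_nonneg_left he1 hs.le
          rw [hd]
          linarith
        choose q hqN hql hqd using hq
        -- the lightest of the three primes
        obtain ⟨l, -, hmin⟩ := Finset.exists_min_image (Finset.univ : Finset (Fin 3))
          (fun l => Real.log (q l : ℝ)) Finset.univ_nonempty
        have hqinj : Function.Injective q := by
          intro a b hab
          have h1 := hql a
          rw [hab, hql b] at h1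
          exact h1.symm
        have hsum3 : ∑ l : Fin 3, Real.log (q l : ℝ) ≤ x := by
          refine le_trans ?_ htw
          unfold tw
          rw [← Finset.sum_image (s := Finset.univ) (g := q) (f := fun p : ℕ => Real.log (p : ℝ))
            (fun a _ b _ h => hqinj h)]
          apply Finset.sum_le_sum_of_subset_of_nonneg
          · intro p hp
            obtain ⟨a, -, rfl⟩ := Finset.mem_image.mp hp
            exact hqN a
          · intro p _ _
            exact Real.log_natCast_nonneg p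
        have hl3 : Real.log (q l : ℝ) ≤ 1 / 3 * x := by
          have h1 : ∑ _a : Fin 3, Real.log (q l : ℝ) ≤ ∑ a : Fin 3, Real.log (q a : ℝ) :=
            Finset.sum_le_sum (fun a ha => hmin a ha)
          rw [Finset.sum_const, nsmul_eq_mul, Finset.card_univ, Fintype.card_fin] at h1
          push_cast at h1
          linarith
        have hS : ({q l} : Finset ℕ) ⊆ (N t).primeFactors :=
          Finset.singleton_subset_iff.mpr (hqN l)
        obtain ⟨a, b, hab, hal', hbl'⟩ : ∃ a b : Fin 3, a ≠ b ∧ a ≠ l ∧ b ≠ l := by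
          have hm3 : l = 0 ∨ l = 1 ∨ l = 2 := by omega
          rcases hm3 with rfl | rfl | rfl
          · exact ⟨1, 2, by decide, by decide, by decide⟩
          · exact ⟨0, 2, by decide, by decide, by decide⟩
          · exact ⟨0, 1, by decide, by decide, by decide⟩
        refine ⟨{q l}, hS, l, prod_le_rpow hS hn1 ?_, ?_, big t (s * x) \ {q l}, hHsub _,
          hHcard _, ?_⟩
        · rw [Finset.sum_singleton]
          nlinarith
        · rw [Finset.filter_true_of_mem (by
            intro p hp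
            rw [Finset.mem_singleton] at hp
            rw [hp]
            exact hql l), Finset.sum_singleton]
          exact hqd l
        · refine (rest_le hI (z := s * x) {q l} hab hal' hbl').trans ?_
          have h2 := sdiff_sum_le hI (sml t (s * x) a) {q l}
          have h3 := sdiff_sum_le hI (sml t (s * x) b) {q l}
          have h4 := hall a
          have h5 := hall b
          linarith
    · exact Or.inr (Or.inl (one j i hij.symm hjm him hj1 hi0))
  · rcases hj j with hj0 | hj1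
    · exact Or.inr (Or.inl (one i j hij him hjm hi1 hj0))
    · rcases le_total (wt t i) (wt t j) with h | h
      · exact Or.inr (Or.inl (two i j hij him hjm h hj1))
      · exact Or.inr (Or.inl (two j i hij.symm hjm him h hi1))

/-- The triples of radical at most `n` and height between `M0 log n` and `n ^ A`, if `M0` is
large in terms of `ε`: at most `n ^ (1/3 + ε)`. -/
theorem large_all (A : ℝ) (HT : T3Stmt A) (HK : Pabc12.RootKStmt A) (HI : RootInfStmt A) (ε : ℝ)
    (hε : 0 < ε) :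
    ∃ M0 : ℝ, 1 ≤ M0 ∧ ∀ᶠ n : ℕ in atTop, ∀ T : Finset (ℕ × ℕ),
      (∀ t ∈ T, IsT t ∧ rd t ≤ n ∧ M0 * Real.log n ≤ ht t ∧ ht t ≤ (n : ℝ) ^ A) →
      (T.card : ℝ) ≤ (n : ℝ) ^ (1 / 3 + ε) := by
  classical
  obtain ⟨e, he0, heε, he1⟩ : ∃ e : ℝ, 0 < e ∧ e ≤ ε ∧ e ≤ 1 :=
    ⟨min ε 1, by positivity, min_le_left _ _, min_le_right _ _⟩
  set s : ℝ := e / 8 with hs
  have hs0 : 0 < s := by positivity
  have hs1 : s ≤ 1 := by rw [hs]; linarith
  set k : ℕ := ⌈1 / s⌉₊ with hk
  have hk1 : 1 / s ≤ k := Nat.le_ceil _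
  have hk2 : (k : ℝ) ≤ 2 / s := by
    have h1 : (k : ℝ) < 1 / s + 1 := Nat.ceil_lt_add_one (by positivity)
    have h2 : 1 ≤ 1 / s := by rw [le_div_iff₀ hs0]; linarith
    have h3 : 2 / s = 1 / s + 1 / s := by ring
    linarith
  obtain ⟨cI, hcI, KI, hI⟩ := HI (e / 4) k (by positivity)
  have H : ∀ d : ℝ, ∃ c K K' : ℝ, 0 < d → d ≤ 1 → (0 < c ∧
      (∀ᶠ n : ℕ in atTop, ∀ T : Finset (ℕ × ℕ),
        (∀ t ∈ T, IsT t ∧ rd t ≤ n ∧ K * Real.log n ≤ ht t ∧ ht t ≤ (n : ℝ) ^ A ∧
          HasK n d (1 / 3 + 2 * s) c k t) →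
          (T.card : ℝ) ≤ (n : ℝ) ^ (1 / 3 + 2 * s + e / 4)) ∧
      ∀ᶠ n : ℕ in atTop, ∀ T : Finset (ℕ × ℕ),
        (∀ t ∈ T, IsT t ∧ rd t ≤ n ∧ K' * Real.log n ≤ ht t ∧ ht t ≤ (n : ℝ) ^ A ∧
          HasM n d (2 * s) (1 / 3) t) → (T.card : ℝ) ≤ (n : ℝ) ^ (2 * s + 1 / 3 + e / 4)) := by
    intro d
    by_cases hd : 0 < d ∧ d ≤ 1
    · obtain ⟨c, hc, K, hK⟩ := HK d (1 / 3 + 2 * s) (e / 4) k hd.1 hd.2 (by positivity)
        (by positivity)
      obtain ⟨K', hK'⟩ := HT d (2 * s) (1 / 3) (e / 4) hd.1 hd.2 (by positivity) (by norm_num)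
        (by positivity)
      exact ⟨c, K, K', fun _ _ => ⟨hc, hK, hK'⟩⟩
    · exact ⟨0, 0, 0, fun h1 h2 => absurd ⟨h1, h2⟩ hd⟩
  choose cf Kf Kg hcK using H
  have hcf : ∀ d, 0 < d → d ≤ 1 → 0 < cf d := fun d h1 h2 => (hcK d h1 h2).1
  set η : ℕ → ℝ := scl s cI cf with hη
  have hηpos : ∀ j, 0 < η j ∧ η j ≤ 1 / 4 := scl_pos hs0 hcI hcf hs1
  have hηsucc := fun j => scl_succ (s := s) (cI := cI) (cf := cf) j
  have hanti : Antitone η := antitone_nat_of_succ_le (fun j => by
    have h1 := (hηsucc j).1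
    have h2 := (hηpos j).1
    simp only [hη] at h2 ⊢
    linarith)
  have hd : ∀ j, 0 < s * η j / 4 ∧ s * η j / 4 ≤ 1 := by
    intro j
    obtain ⟨h1, h2⟩ := hηpos j
    refine ⟨by positivity, ?_⟩
    have : s * η j ≤ 1 * (1 / 4) := mul_le_mul hs1 h2 h1.le (by norm_num)
    linarith
  set g : ℕ → ℝ := fun j => |Kf (s * η j / 4)| + |Kg (s * η j / 4)| with hg
  have hg0 : ∀ j, 0 ≤ g j := fun j => by
    simp only [hg]
    positivity
  set M0 : ℝ := 1 + |KI| + ∑ j ∈ Finset.range 4, g j with hM0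
  have hsum0 : 0 ≤ ∑ j ∈ Finset.range 4, g j := Finset.sum_nonneg (fun j _ => hg0 j)
  have hM01 : 1 ≤ M0 := by
    have := abs_nonneg KI
    linarith
  have hM0g : ∀ j, j < 4 → g j ≤ M0 := by
    intro j hj
    have h1 := Finset.single_le_sum (f := g) (fun j _ => hg0 j) (Finset.mem_range.mpr hj)
    have := abs_nonneg KI
    linarith
  have hM0I : KI ≤ M0 := by
    have := le_abs_self KI
    linarith
  have hM0K : ∀ j, j < 4 → Kf (s * η j / 4) ≤ M0 := by
    intro j hj
    refine le_trans ?_ (hM0g j hj)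
    have h2 := abs_nonneg (Kg (s * η j / 4))
    have := le_abs_self (Kf (s * η j / 4))
    simp only [hg]
    linarith
  have hM0G : ∀ j, j < 4 → Kg (s * η j / 4) ≤ M0 := by
    intro j hj
    refine le_trans ?_ (hM0g j hj)
    have h2 := abs_nonneg (Kf (s * η j / 4))
    have := le_abs_self (Kg (s * η j / 4))
    simp only [hg]
    linarith
  refine ⟨M0, hM01, ?_⟩
  have hTall : ∀ᶠ n : ℕ in atTop, ∀ j ∈ Finset.range 4, ∀ T : Finset (ℕ × ℕ),
        (∀ t ∈ T, IsT t ∧ rd t ≤ n ∧ Kg (s * η j / 4) * Real.log n ≤ ht t ∧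
          ht t ≤ (n : ℝ) ^ A ∧ HasM n (s * η j / 4) (2 * s) (1 / 3) t) →
        (T.card : ℝ) ≤ (n : ℝ) ^ (2 * s + 1 / 3 + e / 4) :=
    (Filter.eventually_all_finset _).mpr (fun j _ => (hcK _ (hd j).1 (hd j).2).2.2)
  have hKall : ∀ᶠ n : ℕ in atTop, ∀ j ∈ Finset.range 4, ∀ T : Finset (ℕ × ℕ),
        (∀ t ∈ T, IsT t ∧ rd t ≤ n ∧ Kf (s * η j / 4) * Real.log n ≤ ht t ∧
          ht t ≤ (n : ℝ) ^ A ∧
          HasK n (s * η j / 4) (1 / 3 + 2 * s) (cf (s * η j / 4)) k t) →
        (T.card : ℝ) ≤ (n : ℝ) ^ (1 / 3 + 2 * s + e / 4) :=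
    (Filter.eventually_all_finset _).mpr (fun j _ => (hcK _ (hd j).1 (hd j).2).2.1)
  have hlim : Tendsto (fun n : ℕ => Real.log (n : ℝ)) atTop atTop :=
    Real.tendsto_log_atTop.comp tendsto_natCast_atTop_atTop
  have hlim2 : Tendsto (fun n : ℕ => (n : ℝ)) atTop atTop := tendsto_natCast_atTop_atTop
  have hbig : ∀ᶠ n : ℕ in atTop, (9 : ℝ) ≤ (n : ℝ) ^ (e / 2) :=
    ((tendsto_rpow_atTop (show 0 < e / 2 by positivity)).comp hlim2).eventually_ge_atTop _
  filter_upwards [hTall, hKall, hI, hlim.eventually (eventually_ge_atTop 200), hbig,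
    eventually_ge_atTop 2] with n h1 h2 h3 h4 h6 h7 T hT
  have hn1 : 1 ≤ n := by omega
  have hn1' : (1 : ℝ) ≤ n := by exact_mod_cast hn1
  have hn0 : (0 : ℝ) < n := by linarith
  have hl0 : 0 < Real.log (n : ℝ) := by linarith
  set T1 : ℕ → Finset (ℕ × ℕ) := fun j => T.filter
    (fun t => HasM n (s * η j / 4) (2 * s) (1 / 3) t) with hT1
  set T2 : ℕ → Finset (ℕ × ℕ) := fun j => T.filter
    (fun t => HasK n (s * η j / 4) (1 / 3 + 2 * s) (cf (s * η j / 4)) k t) with hT2
  set T3 := T.filter (fun t => HasInf cI k t) with hT3'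
  have hcover : T ⊆ (Finset.range 4).biUnion T1 ∪ ((Finset.range 4).biUnion T2 ∪ T3) := by
    intro t ht'
    obtain ⟨hIt, hrd, hh1, hh2⟩ := hT t ht'
    have hht : 200 ≤ ht t := by
      have : 1 * Real.log (n : ℝ) ≤ M0 * Real.log n := mul_le_mul_of_nonneg_right hM01 hl0.le
      linarith
    obtain ⟨j, hj, hsc⟩ := scales 3 η hanti
      (fun l : Fin 3 => ∑ p ∈ sml t (s * Real.log n) l, u t p)
    have hj4 : j < 4 := hj
    have hη1 := (hηpos j)
    have hη2 := (hηpos (j + 1))
    have hc := casesM hIt hht h7 hrd hs0 hs1 hη1.1 hη1.2 hη2.2 hk1 hk2 hsc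
    rw [Finset.mem_union, Finset.mem_union, Finset.mem_biUnion, Finset.mem_biUnion]
    rcases hc with hc | hc | hc
    · left
      exact ⟨j, Finset.mem_range.mpr hj4, Finset.mem_filter.mpr ⟨ht', hc⟩⟩
    · right; left
      exact ⟨j, Finset.mem_range.mpr hj4, Finset.mem_filter.mpr ⟨ht',
        hc.mono hn1 le_rfl le_rfl (hηsucc j).2.1⟩⟩
    · right; right
      exact Finset.mem_filter.mpr ⟨ht', hc.mono (hηsucc j).2.2⟩
  have c1 : ∀ j ∈ Finset.range 4, ((T1 j).card : ℝ) ≤ (n : ℝ) ^ (1 / 3 + e / 2) := by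
    intro j hj
    refine (h1 j hj (T1 j) ?_).trans ?_
    · intro t ht'
      simp only [hT1] at ht'
      rw [Finset.mem_filter] at ht'
      obtain ⟨hIt, hrd, hh1, hh2⟩ := hT t ht'.1
      refine ⟨hIt, hrd, le_trans ?_ hh1, hh2, ht'.2⟩
      exact mul_le_mul_of_nonneg_right (hM0G j (Finset.mem_range.mp hj)) hl0.le
    · apply Real.rpow_le_rpow_of_exponent_le hn1'
      rw [hs]
      linarith
  have c2 : ∀ j ∈ Finset.range 4, ((T2 j).card : ℝ) ≤ (n : ℝ) ^ (1 / 3 + e / 2) := by
    intro j hj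
    refine (h2 j hj (T2 j) ?_).trans ?_
    · intro t ht'
      simp only [hT2] at ht'
      rw [Finset.mem_filter] at ht'
      obtain ⟨hIt, hrd, hh1, hh2⟩ := hT t ht'.1
      refine ⟨hIt, hrd, le_trans ?_ hh1, hh2, ht'.2⟩
      exact mul_le_mul_of_nonneg_right (hM0K j (Finset.mem_range.mp hj)) hl0.le
    · apply Real.rpow_le_rpow_of_exponent_le hn1'
      rw [hs]
      linarith
  have c3 : (T3.card : ℝ) ≤ (n : ℝ) ^ (1 / 3 + e / 2) := by
    refine (h3 T3 ?_).trans ?_
    · intro t ht'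
      rw [hT3', Finset.mem_filter] at ht'
      obtain ⟨hIt, hrd, hh1, hh2⟩ := hT t ht'.1
      refine ⟨hIt, hrd, le_trans ?_ hh1, hh2, ht'.2⟩
      exact mul_le_mul_of_nonneg_right hM0I hl0.le
    · apply Real.rpow_le_rpow_of_exponent_le hn1'
      linarith
  have hB0 : 0 < (n : ℝ) ^ (1 / 3 + e / 2) := by positivity
  calc (T.card : ℝ) ≤ (((Finset.range 4).biUnion T1 ∪
        ((Finset.range 4).biUnion T2 ∪ T3)).card : ℝ) := by
        exact_mod_cast Finset.card_le_card hcover
    _ ≤ (((Finset.range 4).biUnion T1).card : ℝ) +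
        (((Finset.range 4).biUnion T2).card + T3.card) := by
        exact_mod_cast (Finset.card_union_le _ _).trans
          (Nat.add_le_add_left (Finset.card_union_le _ _) _)
    _ ≤ ∑ j ∈ Finset.range 4, ((T1 j).card : ℝ) +
        (∑ j ∈ Finset.range 4, ((T2 j).card : ℝ) + (n : ℝ) ^ (1 / 3 + e / 2)) := by
        have g1 : (((Finset.range 4).biUnion T1).card : ℝ) ≤
            ∑ j ∈ Finset.range 4, ((T1 j).card : ℝ) := by
          exact_mod_cast Finset.card_biUnion_le
        have g2 : (((Finset.range 4).biUnion T2).card : ℝ) ≤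
            ∑ j ∈ Finset.range 4, ((T2 j).card : ℝ) := by
          exact_mod_cast Finset.card_biUnion_le
        linarith
    _ ≤ ∑ _j ∈ Finset.range 4, (n : ℝ) ^ (1 / 3 + e / 2) +
        (∑ _j ∈ Finset.range 4, (n : ℝ) ^ (1 / 3 + e / 2) + (n : ℝ) ^ (1 / 3 + e / 2)) := by
        have g1 := Finset.sum_le_sum c1
        have g2 := Finset.sum_le_sum c2
        linarith
    _ = 9 * (n : ℝ) ^ (1 / 3 + e / 2) := by
        rw [Finset.sum_const, nsmul_eq_mul, Finset.card_range]
        push_cast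
        ring
    _ ≤ (n : ℝ) ^ (e / 2) * (n : ℝ) ^ (1 / 3 + e / 2) :=
        mul_le_mul_of_nonneg_right h6 hB0.le
    _ = (n : ℝ) ^ (1 / 3 + e) := by
        rw [← Real.rpow_add hn0]
        congr 1
        ring
    _ ≤ (n : ℝ) ^ (1 / 3 + ε) := by
        apply Real.rpow_le_rpow_of_exponent_le hn1'
        linarith

end Pool.Agent.Lib.AbcL
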