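import Mathlib
import Pool.Agent.Lib.AbcL.LargeAll
import Pool.Agent.Lib.AbcL.Ready

/-!
# The violators for large exponents, without a bound for the height

The only hypothesis left is `T3Stmt 3`.
-/

open Finset Filter Topology

namespace Pool.Agent.Lib.AbcL

open Pool.Agent.Lib.Pabc2 Pool.Agent.Lib.Pabc1 Pool.Agent.Lib.Pabcv

theorem large_n (HT : T3Stmt 3) (ε : ℝ) (hε : 0 < ε) :
    ∃ M0 : ℝ, 1 ≤ M0 ∧ ∀ᶠ n : ℕ in atTop, ∀ T : Finset (ℕ × ℕ),
      (∀ t ∈ T, IsT t ∧ rd t ≤ n ∧ M0 * Real.log n ≤ ht t) →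
      (T.card : ℝ) ≤ (n : ℝ) ^ (1 / 3 + ε) := by
  obtain ⟨M0, hM0, h1⟩ := large_all 3 HT (rootK 3 (by norm_num)) (rootInf 3 (by norm_num)) ε hε
  refine ⟨M0, hM0, ?_⟩
  filter_upwards [h1, height3] with n h2 h3 T hT
  exact h2 T (fun t ht' => ⟨(hT t ht').1, (hT t ht').2.1, (hT t ht').2.2,
    h3 t (hT t ht').1 (hT t ht').2.1⟩)

/-- The triples with `c ≥ rad ^ M0`. -/
theorem large_rad_all (HT : T3Stmt 3) (ε : ℝ) (hε : 0 < ε) :
    ∃ M0 : ℝ, 1 ≤ M0 ∧ ∀ᶠ n : ℕ in atTop, ∀ T : Finset (ℕ × ℕ),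
      (∀ t ∈ T, IsT t ∧ rd t ≤ n ∧ M0 * Real.log (rd t) ≤ ht t) →
      (T.card : ℝ) ≤ (n : ℝ) ^ (1 / 3 + ε) := by
  obtain ⟨M0, hM0, h1⟩ := large_n HT (ε / 2) (by positivity)
  refine ⟨M0 + 1, by linarith, ?_⟩
  set α : ℝ := 1 / 3 + ε / 2 with hα
  have hα0 : 0 < α := by positivity
  have key := dyadic hα0 (β := 1) one_pos all_le
    (fun _ t => (M0 + 1) * Real.log (rd t) ≤ ht t)
    (fun m t => M0 * Real.log m ≤ ht t) h1 (by
      have hlim : Tendsto (fun n : ℕ => Real.log (n : ℝ)) atTop atTop :=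
        Real.tendsto_log_atTop.comp tendsto_natCast_atTop_atTop
      filter_upwards [hlim.eventually (eventually_ge_atTop ((M0 + 1) * Real.log 2)),
        eventually_ge_atTop 1] with m hm hm1 n _ _ t hI _ hm2 hP
      have hm0 : (0 : ℝ) < m := by exact_mod_cast hm1
      have hr0 : (0 : ℝ) < rd t := by exact_mod_cast rd_pos t
      have h2 : Real.log m ≤ Real.log 2 + Real.log (rd t) := by
        rw [← Real.log_mul (by norm_num) hr0.ne']
        apply Real.log_le_log hm0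
        exact_mod_cast hm2
      have h3 : (M0 + 1) * (Real.log m - Real.log 2) ≤ (M0 + 1) * Real.log (rd t) :=
        mul_le_mul_of_nonneg_left (by linarith) (by linarith)
      linarith) (ε / 2) (by positivity)
  filter_upwards [key] with n h T hT
  refine (h T hT).trans (le_of_eq ?_)
  congr 1
  rw [hα]
  ring

/-- The abc triples with `rad (abc) ≤ Y`, `rad (abc) ^ M ≤ c`. -/
def violRad (M : ℝ) (Y : ℕ) : Set (ℕ × ℕ × ℕ) :=
  {t | AbcTriple t.1 t.2.1 t.2.2 ∧ rad (t.1 * t.2.1 * t.2.2) ≤ Y ∧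
    (rad (t.1 * t.2.1 * t.2.2) : ℝ) ^ M ≤ t.2.2}

theorem final_C (HT : T3Stmt 3) (ε : ℝ) (hε : 0 < ε) :
    ∃ M0 : ℝ, 1 ≤ M0 ∧ ∀ᶠ Y : ℕ in atTop, (violRad M0 Y).Finite ∧
        ((violRad M0 Y).ncard : ℝ) ≤ (Y : ℝ) ^ (1 / 3 + ε) := by
  obtain ⟨M0, hM0, h1⟩ := large_rad_all HT (ε / 2) (by positivity)
  have hlim2 : Tendsto (fun n : ℕ => (n : ℝ)) atTop atTop := tendsto_natCast_atTop_atTop
  refine ⟨M0, hM0, ?_⟩
  filter_upwards [h1, ((tendsto_rpow_atTop (show 0 < ε / 2 by positivity)).comp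
      hlim2).eventually_ge_atTop 2, eventually_ge_atTop 1] with Y h2 h3 hY1
  simp only [Function.comp] at h3
  have hY0 : (0 : ℝ) < Y := by exact_mod_cast hY1
  obtain ⟨ha, hb⟩ := transfer (V := violRad M0 Y)
    (Q := fun t => IsT t ∧ rd t ≤ Y ∧ M0 * Real.log (rd t) ≤ ht t)
    (B := (Y : ℝ) ^ (1 / 3 + ε / 2)) (by
      rintro ⟨a, b, c⟩ ⟨habc, hr, hc3⟩
      simp only at habc hr hc3
      simp only
      have hrpos : (0 : ℝ) < rad (a * b * c) := by exact_mod_cast rad_pos _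
      refine ⟨habc, isT_of habc, ?_, ?_⟩
      · rw [rd_of habc]; exact hr
      · rw [ht_of habc, rd_of habc, ← Real.log_rpow hrpos]
        exact Real.log_le_log (by positivity) hc3) h2
  refine ⟨ha, hb.trans ?_⟩
  have h4 : (Y : ℝ) ^ (1 / 3 + ε) = (Y : ℝ) ^ (ε / 2) * (Y : ℝ) ^ (1 / 3 + ε / 2) := by
    rw [← Real.rpow_add hY0]
    congr 1
    ring
  rw [h4]
  exact mul_le_mul_of_nonneg_right h3 (by positivity)

end Pool.Agent.Lib.AbcL
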