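import Mathlib
import Pool.Agent.Lib.AbcL.Ready
import Pool.Agent.Lib.Pabc8.Lower

/-!
# The exceptional set, with a saving linear in `ε`, and a lower bound
-/

open Finset Filter Topology

namespace Pool.Agent.Lib.AbcL

open Pool.Agent.Lib.Pabc2 Pool.Agent.Lib.Pabc1 Pool.Agent.Lib.Pabcv Pool.Agent.Lib.Pabc8

/-- The range `(1/3 + e) log n ≤ log c ≤ K log n`, with the explicit saving `e / 300`. -/
theorem mid_count_explicit (e K : ℝ) (he : 0 < e) (he1 : e ≤ 1 / 10) (hK : 1 ≤ K) :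
    ∀ᶠ n : ℕ in atTop, ∀ T : Finset (ℕ × ℕ),
      (∀ t ∈ T, IsT t ∧ rd t ≤ n ∧ (1 / 3 + e) * Real.log n ≤ ht t ∧ ht t ≤ K * Real.log n) →
      (T.card : ℝ) ≤ (n : ℝ) ^ (2 / 3 - e / 300) := by
  classical
  obtain ⟨Y0, hY0⟩ := Pabcx.mid_card_le_explicit e K he he1 hK
  have hlim2 : Tendsto (fun n : ℕ => (n : ℝ)) atTop atTop := tendsto_natCast_atTop_atTop
  filter_upwards [hlim2.eventually (eventually_ge_atTop Y0), eventually_ge_atTop 1]
    with n h1 hn1 T hT
  have hn0 : (0 : ℝ) < n := by exact_mod_cast hn1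
  obtain ⟨hfin, hle⟩ := hY0 n h1
  refine le_trans ?_ hle
  have hinj : Function.Injective (fun t : ℕ × ℕ => (t.1, t.2, t.1 + t.2)) := by
    rintro ⟨a, b⟩ ⟨a', b'⟩ h
    simp only [Prod.mk.injEq] at h
    rw [h.1, h.2.1]
  have hsub : ((T.image (fun t : ℕ × ℕ => (t.1, t.2, t.1 + t.2)) : Finset (ℕ × ℕ × ℕ)) :
      Set (ℕ × ℕ × ℕ)) ⊆ Pabcx.midTriples e K n := by
    intro v hv
    rw [Finset.mem_coe, Finset.mem_image] at hv
    obtain ⟨t, ht', rfl⟩ := hv
    obtain ⟨hI, hrd, hh1, hh2⟩ := hT t ht'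
    refine ⟨abc_of hI, ?_, ?_, ?_⟩
    · have : Pabcv.rad (t.1 * t.2 * (t.1 + t.2)) = rd t := rfl
      simp only
      rw [this]
      exact_mod_cast hrd
    · simp only
      rw [← exp_ht hI, Real.rpow_def_of_pos hn0, Real.exp_le_exp]
      linarith
    · simp only
      rw [← exp_ht hI, Real.rpow_def_of_pos hn0, Real.exp_le_exp]
      linarith
  have h2 := Set.ncard_le_ncard hsub hfin
  rw [Set.ncard_coe_finset, Finset.card_image_of_injective _ hinj] at h2
  exact_mod_cast h2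

/-- All triples with `c ≥ n ^ (1/3 + e)`, saving linear in `e`. -/
theorem above_lin : ∃ κ : ℝ, 0 < κ ∧ κ ≤ 1 / 3 ∧ ∀ e : ℝ, 0 < e → e ≤ 1 →
    ∀ᶠ n : ℕ in atTop, ∀ T : Finset (ℕ × ℕ),
      (∀ t ∈ T, IsT t ∧ rd t ≤ n ∧ (1 / 3 + e) * Real.log n ≤ ht t) →
      (T.card : ℝ) ≤ (n : ℝ) ^ (2 / 3 - κ * e) := by
  classical
  obtain ⟨K, κ1, hκ1, h1⟩ := Pabc12.tall_of_fibre 3 (by norm_num) (fibreK 3 (by norm_num))
  set κ : ℝ := min κ1 (1 / 3000) / 2 with hκ
  have hκ0 : 0 < κ := by positivity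
  have hκa : 2 * κ ≤ κ1 := by
    have := min_le_left κ1 (1 / 3000)
    rw [hκ]
    linarith
  have hκb : 2 * κ ≤ 1 / 3000 := by
    have := min_le_right κ1 (1 / 3000)
    rw [hκ]
    linarith
  refine ⟨κ, hκ0, by linarith, fun e he he1 => ?_⟩
  set e' : ℝ := min e (1 / 10) with he'
  have he'0 : 0 < e' := by positivity
  have hee' : e / 10 ≤ e' := by
    rw [he']
    exact le_min (by linarith) (by linarith)
  have h2 := mid_count_explicit e' (max K 1) he'0 (min_le_right _ _) (le_max_right _ _)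
  have hlim2 : Tendsto (fun n : ℕ => (n : ℝ)) atTop atTop := tendsto_natCast_atTop_atTop
  filter_upwards [h1, h2, height3,
    ((tendsto_rpow_atTop (show 0 < κ * e by positivity)).comp hlim2).eventually_ge_atTop 2,
    eventually_ge_atTop 1] with n g1 g2 g3 g4 hn1 T hT
  simp only [Function.comp] at g4
  have hn0 : (0 : ℝ) < n := by exact_mod_cast hn1
  have hn1' : (1 : ℝ) ≤ n := by exact_mod_cast hn1
  have hlog : 0 ≤ Real.log (n : ℝ) := Real.log_nonneg hn1'
  have c1 := g1 (T.filter (fun t => K * Real.log n ≤ ht t)) (by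
    intro t ht'
    rw [Finset.mem_filter] at ht'
    obtain ⟨hI, hrd, hh⟩ := hT t ht'.1
    exact ⟨hI, hrd, ht'.2, g3 t hI hrd⟩)
  have c2 := g2 (T.filter (fun t => ¬ K * Real.log n ≤ ht t)) (by
    intro t ht'
    rw [Finset.mem_filter, not_le] at ht'
    obtain ⟨hI, hrd, hh⟩ := hT t ht'.1
    refine ⟨hI, hrd, le_trans ?_ hh, ht'.2.le.trans ?_⟩
    · exact mul_le_mul_of_nonneg_right (by linarith [min_le_left e (1 / 10)]) hlog
    · exact mul_le_mul_of_nonneg_right (le_max_left _ _) hlog)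
  have c3 : (T.card : ℝ) = (T.filter (fun t => K * Real.log n ≤ ht t)).card +
      (T.filter (fun t => ¬ K * Real.log n ≤ ht t)).card := by
    exact_mod_cast (Finset.card_filter_add_card_filter_not (s := T) _).symm
  have f1 : 2 * (κ * e) ≤ κ1 := by
    have : 2 * κ * e ≤ 2 * κ * 1 := mul_le_mul_of_nonneg_left he1 (by positivity)
    linarith
  have f2 : 2 * (κ * e) ≤ e' / 300 := by
    have : 2 * κ * e ≤ 1 / 3000 * e := mul_le_mul_of_nonneg_right hκb he.le
    linarith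
  have e1 : (n : ℝ) ^ (2 / 3 - κ1) ≤ (n : ℝ) ^ (2 / 3 - 2 * (κ * e)) :=
    Real.rpow_le_rpow_of_exponent_le hn1' (by linarith)
  have e2 : (n : ℝ) ^ (2 / 3 - e' / 300) ≤ (n : ℝ) ^ (2 / 3 - 2 * (κ * e)) :=
    Real.rpow_le_rpow_of_exponent_le hn1' (by linarith)
  have e3 : (n : ℝ) ^ (2 / 3 - κ * e) = (n : ℝ) ^ (κ * e) * (n : ℝ) ^ (2 / 3 - 2 * (κ * e)) := by
    rw [← Real.rpow_add hn0]
    congr 1
    ring
  have e4 : 0 < (n : ℝ) ^ (2 / 3 - 2 * (κ * e)) := by positivity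
  rw [e3]
  nlinarith

/-- The triples with `c ≥ rad ^ (1/3 + ε)`, saving linear in `ε`. -/
theorem exceptional_lin : ∃ κ : ℝ, 0 < κ ∧ κ ≤ 1 / 3 ∧ ∀ ε : ℝ, 0 < ε → ε ≤ 1 →
    ∀ᶠ n : ℕ in atTop, ∀ T : Finset (ℕ × ℕ),
      (∀ t ∈ T, IsT t ∧ rd t ≤ n ∧ (1 / 3 + ε) * Real.log (rd t) ≤ ht t) →
      (T.card : ℝ) ≤ (n : ℝ) ^ (2 / 3 - κ * ε) := by
  classical
  obtain ⟨κ, hκ, hκ3, h0⟩ := above_lin
  refine ⟨κ / 4, by positivity, by linarith, fun ε hε hε1 => ?_⟩
  have h1 := h0 (ε / 2) (by positivity) (by linarith)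
  have hα : 0 < 2 / 3 - κ * (ε / 2) := by
    have : κ * ε ≤ 1 / 3 * 1 := mul_le_mul hκ3 hε1 hε.le (by norm_num)
    linarith
  have key := dyadic hα (β := 1) one_pos all_le
    (fun _ t => (1 / 3 + ε) * Real.log (rd t) ≤ ht t)
    (fun m t => (1 / 3 + ε / 2) * Real.log m ≤ ht t) h1 (by
      have hlim : Tendsto (fun n : ℕ => Real.log (n : ℝ)) atTop atTop :=
        Real.tendsto_log_atTop.comp tendsto_natCast_atTop_atTop
      filter_upwards [hlim.eventually (eventually_ge_atTop ((1 / 3 + ε) * Real.log 2 / (ε / 2))),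
        eventually_ge_atTop 1] with m hm hm1 n _ _ t hI _ hm2 hP
      have hm0 : (0 : ℝ) < m := by exact_mod_cast hm1
      have hr0 : (0 : ℝ) < rd t := by exact_mod_cast rd_pos t
      have h2 : Real.log m ≤ Real.log 2 + Real.log (rd t) := by
        rw [← Real.log_mul (by norm_num) hr0.ne']
        apply Real.log_le_log hm0
        exact_mod_cast hm2
      rw [div_le_iff₀ (by positivity)] at hm
      have h3 : (1 / 3 + ε) * (Real.log m - Real.log 2) ≤ (1 / 3 + ε) * Real.log (rd t) :=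
        mul_le_mul_of_nonneg_left (by linarith) (by positivity)
      linarith) (κ * ε / 4) (by positivity)
  filter_upwards [key] with n h T hT
  refine (h T hT).trans (le_of_eq ?_)
  congr 1
  ring

/-- Lower bound for the exceptional set. -/
theorem exc_lower (ε : ℝ) (hε : 0 < ε) (hε6 : ε < 1 / 6) : ∀ᶠ Y : ℕ in atTop,
    (excTriples ε Y).Finite → (Y : ℝ) ^ (2 / 3 - ε) / 256 ≤ (excTriples ε Y).ncard := by
  classical
  have hlim2 : Tendsto (fun n : ℕ => (n : ℝ)) atTop atTop := tendsto_natCast_atTop_atTop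
  filter_upwards [((tendsto_rpow_atTop (show 0 < 1 / 3 - 2 * ε by linarith)).comp
      hlim2).eventually_ge_atTop 256,
    eventually_ge_atTop 1] with Y g1 hY1 hfin
  simp only [Function.comp] at g1
  have hY0 : (0 : ℝ) < Y := by exact_mod_cast hY1
  have hY1' : (1 : ℝ) ≤ Y := by exact_mod_cast hY1
  set P : ℝ := (Y : ℝ) ^ (1 / 3 + ε) with hP
  set R : ℝ := (Y : ℝ) ^ (1 / 3 - 2 * ε) with hR
  have hP1 : 1 ≤ P := Real.one_le_rpow hY1' (by linarith)
  have hRP : R ≤ P := Real.rpow_le_rpow_of_exponent_le hY1' (by linarith)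
  have hRPP : R * P * P = Y := by
    rw [hR, hP, ← Real.rpow_add hY0, ← Real.rpow_add hY0]
    rw [show (1 : ℝ) / 3 - 2 * ε + (1 / 3 + ε) + (1 / 3 + ε) = 1 by ring, Real.rpow_one]
  have hRPe : R * P = (Y : ℝ) ^ (2 / 3 - ε) := by
    rw [hR, hP, ← Real.rpow_add hY0]
    congr 1
    ring
  set A : ℕ := ⌊R / 128⌋₊ with hA
  set B : ℕ := ⌈P⌉₊ with hB
  have hA1 : (A : ℝ) ≤ R / 128 := Nat.floor_le (by positivity)
  have hA2 : R / 128 < A + 1 := Nat.lt_floor_add_one _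
  have hB1 : P ≤ B := Nat.le_ceil _
  have hB2 : (B : ℝ) < P + 1 := Nat.ceil_lt_add_one (by positivity)
  have hA0 : (0 : ℝ) ≤ A := Nat.cast_nonneg A
  have hAB : (A : ℝ) ≤ B := by linarith
  have hABB : 32 * (A : ℝ) * B * B ≤ Y := by
    have h1 : (B : ℝ) ≤ 2 * P := by linarith
    calc 32 * (A : ℝ) * B * B ≤ 32 * (R / 128) * (2 * P) * (2 * P) := by gcongr
      _ = R * P * P := by ring
      _ = Y := hRPP
  have hABB' : 32 * A * B * B ≤ Y := by exact_mod_cast hABB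
  set D : Finset (ℕ × ℕ) := (copR A (4 * B)).filter (fun t => B < t.2) with hD
  set f : ℕ × ℕ → ℕ × ℕ × ℕ := fun t => (t.1, t.2, t.1 + t.2) with hf
  have hinj : Function.Injective f := by
    rintro ⟨a, b⟩ ⟨a', b'⟩ h
    simp only [hf, Prod.mk.injEq] at h
    rw [h.1, h.2.1]
  have hsub : (D.image f : Set (ℕ × ℕ × ℕ)) ⊆ excTriples ε Y := by
    rintro ⟨a, b, c⟩ h
    rw [Finset.mem_coe, Finset.mem_image] at h
    obtain ⟨⟨a', b'⟩, h1, h2⟩ := h
    simp only [hf, Prod.mk.injEq] at h2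
    obtain ⟨rfl, rfl, rfl⟩ := h2
    rw [hD, Finset.mem_filter] at h1
    obtain ⟨h1, hbB⟩ := h1
    unfold copR at h1
    rw [Finset.mem_filter, Finset.mem_product, Finset.mem_Icc, Finset.mem_Icc] at h1
    obtain ⟨⟨⟨ha1, ha2⟩, ⟨hb1, hb2⟩⟩, hc⟩ := h1
    simp only at ha1 ha2 hb1 hb2 hc hbB
    have hAB' : A ≤ B := by exact_mod_cast hAB
    have hab : a' * b' * (a' + b') ≤ Y := by
      calc a' * b' * (a' + b') ≤ A * (4 * B) * (B + 4 * B) := by
            have : a' ≤ B := ha2.trans hAB'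
            gcongr
        _ = 20 * A * B * B := by ring
        _ ≤ 32 * A * B * B := by gcongr; norm_num
        _ ≤ Y := hABB'
    have hpos : 0 < a' * b' * (a' + b') := by positivity
    have hrad : rad (a' * b' * (a' + b')) ≤ Y := (Pabcv.rad_le hpos).trans hab
    refine ⟨⟨ha1, hb1, by simp only; omega, hc, ?_, ?_, rfl⟩, hrad, ?_⟩
    · simp only
      exact (Nat.coprime_self_add_right).mpr hc
    · simp only
      exact (Nat.coprime_add_self_right).mpr hc.symm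
    · simp only
      have h3 : (rad (a' * b' * (a' + b')) : ℝ) ≤ Y := by exact_mod_cast hrad
      calc (rad (a' * b' * (a' + b')) : ℝ) ^ (1 / 3 + ε) ≤ (Y : ℝ) ^ (1 / 3 + ε) :=
            Real.rpow_le_rpow (Nat.cast_nonneg _) h3 (by linarith)
        _ ≤ B := hB1
        _ ≤ ((a' + b' : ℕ) : ℝ) := by
            have : B ≤ a' + b' := by omega
            exact_mod_cast this
  have hcard : D.card ≤ (excTriples ε Y).ncard := by
    have h1 := Set.ncard_le_ncard hsub hfin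
    rw [Set.ncard_coe_finset, Finset.card_image_of_injective _ hinj] at h1
    exact h1
  have hDc : (A : ℝ) * B ≤ D.card := by
    have h1 := copR_card A (4 * B)
    have h2 : (copR A (4 * B)).card = D.card +
        ((copR A (4 * B)).filter (fun t => ¬ B < t.2)).card := by
      rw [hD]
      exact (Finset.card_filter_add_card_filter_not (s := copR A (4 * B)) _).symm
    have h3 : ((copR A (4 * B)).filter (fun t => ¬ B < t.2)).card ≤ A * B := by
      have h4 : (copR A (4 * B)).filter (fun t => ¬ B < t.2) ⊆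
          (Finset.Icc 1 A) ×ˢ (Finset.Icc 1 B) := by
        intro t ht'
        rw [Finset.mem_filter, copR, Finset.mem_filter, Finset.mem_product, Finset.mem_Icc,
          Finset.mem_Icc] at ht'
        rw [Finset.mem_product, Finset.mem_Icc, Finset.mem_Icc]
        obtain ⟨⟨⟨⟨a1, a2⟩, b1, b2⟩, -⟩, hb⟩ := ht'
        exact ⟨⟨a1, a2⟩, b1, by omega⟩
      have h5 := Finset.card_le_card h4
      rw [Finset.card_product, Nat.card_Icc, Nat.card_Icc] at h5
      simpa using h5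
    have h2' : ((copR A (4 * B)).card : ℝ) = D.card +
        ((copR A (4 * B)).filter (fun t => ¬ B < t.2)).card := by exact_mod_cast h2
    have h3' : (((copR A (4 * B)).filter (fun t => ¬ B < t.2)).card : ℝ) ≤ A * B := by
      exact_mod_cast h3
    push_cast at h1
    linarith
  have h6 : (D.card : ℝ) ≤ (excTriples ε Y).ncard := by exact_mod_cast hcard
  have h7 : R / 256 ≤ A := by linarith
  rw [← hRPe]
  calc R * P / 256 = R / 256 * P := by ring
    _ ≤ (A : ℝ) * B := mul_le_mul h7 hB1 (by linarith) hA0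
    _ ≤ _ := hDc.trans h6

theorem final_A_lin : ∃ κ : ℝ, 0 < κ ∧ ∀ ε : ℝ, 0 < ε → ε ≤ 1 → ∀ᶠ Y : ℕ in atTop,
    ((excTriples ε Y).Finite ∧ ((excTriples ε Y).ncard : ℝ) ≤ (Y : ℝ) ^ (2 / 3 - κ * ε) ∧
      (ε < 1 / 6 → (Y : ℝ) ^ (2 / 3 - ε) / 256 ≤ (excTriples ε Y).ncard)) ∧
      (allTriples Y).Finite ∧ (Y : ℝ) ^ (2 / 3 : ℝ) / 4 ≤ (allTriples Y).ncard := by
  obtain ⟨κ, hκ, hκ3, h0⟩ := exceptional_lin
  have hlim2 : Tendsto (fun n : ℕ => (n : ℝ)) atTop atTop := tendsto_natCast_atTop_atTop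
  refine ⟨κ / 2, by positivity, fun ε hε hε1 => ?_⟩
  have hlow : ∀ᶠ Y : ℕ in atTop, ε < 1 / 6 → (excTriples ε Y).Finite →
      (Y : ℝ) ^ (2 / 3 - ε) / 256 ≤ (excTriples ε Y).ncard := by
    by_cases h6 : ε < 1 / 6
    · filter_upwards [exc_lower ε hε h6] with Y hY _ using hY
    · exact Filter.Eventually.of_forall (fun Y h => absurd h h6)
  filter_upwards [h0 ε hε hε1, all_finite, hlow,
      ((tendsto_rpow_atTop (show 0 < κ / 2 * ε by positivity)).comp
      hlim2).eventually_ge_atTop 2, eventually_ge_atTop 13824] with Y h2 hfin hlow h3 hY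
  simp only [Function.comp] at h3
  have hY1 : 1 ≤ Y := by omega
  have hY0 : (0 : ℝ) < Y := by exact_mod_cast hY1
  have hall := all_lower Y hY hfin
  obtain ⟨ha, hb⟩ := transfer (V := excTriples ε Y)
    (Q := fun t => IsT t ∧ rd t ≤ Y ∧ (1 / 3 + ε) * Real.log (rd t) ≤ ht t)
    (B := (Y : ℝ) ^ (2 / 3 - κ * ε)) (by
      rintro ⟨a, b, c⟩ ⟨habc, hr, hc3⟩
      simp only at habc hr hc3
      simp only
      have hrpos : (0 : ℝ) < rad (a * b * c) := by exact_mod_cast rad_pos _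
      refine ⟨habc, isT_of habc, ?_, ?_⟩
      · rw [rd_of habc]; exact hr
      · rw [ht_of habc, rd_of habc, ← Real.log_rpow hrpos]
        exact Real.log_le_log (by positivity) hc3) h2
  refine ⟨⟨ha, hb.trans ?_, fun h6 => hlow h6 ha⟩, hfin, by linarith⟩
  have h4 : (Y : ℝ) ^ (2 / 3 - κ / 2 * ε) = (Y : ℝ) ^ (κ / 2 * ε) * (Y : ℝ) ^ (2 / 3 - κ * ε) := by
    rw [← Real.rpow_add hY0]
    congr 1
    ring
  rw [h4]
  exact mul_le_mul_of_nonneg_right h3 (by positivity)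

end Pool.Agent.Lib.AbcL
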