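import Mathlib
import Pool.Agent.Lib.AbcL.Ready

/-!
# The exponent function of the violators
-/

open Finset Filter Topology

namespace Pool.Agent.Lib.AbcL

open Pool.Agent.Lib.Pabcv

theorem viol_finite (M : ℝ) (X : ℕ) : (viol M X).Finite :=
  (finite_abc_le (X : ℝ)).subset (fun t ht => ⟨ht.1, by
    have h2 : t.2.2 ≤ X := ht.2.1
    show (t.2.2 : ℝ) ≤ X
    exact_mod_cast h2⟩)

/-- `α` is an admissible exponent for `M`. -/
def Adm (M α : ℝ) : Prop := 1 / 3 ≤ α ∧ ∀ ε : ℝ, 0 < ε → ∀ᶠ X : ℕ in atTop,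
  ((viol M X).ncard : ℝ) ≤ (X : ℝ) ^ ((α + ε) / M)

theorem adm_three_fifths (M : ℝ) (hM : 99 / 100 < M) : Adm M (3 / 5) := by
  refine ⟨by norm_num, fun ε hε => ?_⟩
  have hM0 : 0 < M := by linarith
  obtain ⟨X0, h⟩ := violators_card_le M hM (ε / M) (by positivity)
  filter_upwards [eventually_ge_atTop X0] with X hX
  refine (h X hX).trans (le_of_eq ?_)
  congr 1
  field_simp

theorem exists_exponent : ∃ f : ℝ → ℝ, (∀ M, 99 / 100 < M → 1 / 3 ≤ f M ∧ f M ≤ 3 / 5) ∧
    Tendsto f atTop (𝓝 (1 / 3)) ∧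
    ∀ M : ℝ, 99 / 100 < M → ∀ ε : ℝ, 0 < ε → ∀ᶠ X : ℕ in atTop, (viol M X).Finite ∧
      ((viol M X).ncard : ℝ) ≤ (X : ℝ) ^ ((f M + ε) / M) := by
  classical
  have hbdd : ∀ M, BddBelow {α | Adm M α} := fun M => ⟨1 / 3, fun α hα => hα.1⟩
  have hlow : ∀ M, 99 / 100 < M → 1 / 3 ≤ sInf {α | Adm M α} := fun M hM =>
    le_csInf ⟨3 / 5, adm_three_fifths M hM⟩ (fun α hα => hα.1)
  refine ⟨fun M => sInf {α | Adm M α}, fun M hM => ⟨hlow M hM,
    csInf_le (hbdd M) (adm_three_fifths M hM)⟩, ?_, ?_⟩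
  · rw [Metric.tendsto_atTop]
    intro ε hε
    obtain ⟨M0, hM0, -, h2⟩ := ready_B (ε / 2) (by positivity)
    refine ⟨M0, fun M hM => ?_⟩
    have hM1 : 99 / 100 < M := by linarith
    have hMpos : 0 < M := by linarith
    have hadm : Adm M (1 / 3 + ε / 2) := by
      refine ⟨by linarith, fun δ hδ => ?_⟩
      filter_upwards [h2 M hM, eventually_ge_atTop 1] with X hX hX1
      refine hX.2.trans ?_
      apply Real.rpow_le_rpow_of_exponent_le (by exact_mod_cast hX1)
      apply div_le_div_of_nonneg_right _ hMpos.le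
      linarith
    have h3 := csInf_le (hbdd M) hadm
    have h4 := hlow M hM1
    rw [Real.dist_eq, abs_lt]
    constructor
    · linarith
    · linarith
  · intro M hM ε hε
    have hMpos : 0 < M := by linarith
    obtain ⟨α, hα, hlt⟩ := exists_lt_of_csInf_lt ⟨3 / 5, adm_three_fifths M hM⟩
      (show sInf {α | Adm M α} < sInf {α | Adm M α} + ε / 2 by linarith)
    filter_upwards [hα.2 (ε / 2) (by positivity), eventually_ge_atTop 1] with X hX hX1
    refine ⟨viol_finite M X, hX.trans ?_⟩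
    apply Real.rpow_le_rpow_of_exponent_le (by exact_mod_cast hX1)
    apply div_le_div_of_nonneg_right _ hMpos.le
    linarith

end Pool.Agent.Lib.AbcL
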